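import Mathlib

/-! Revealing a random set integer by integer: weights of the subsets of `{0, ..., M - 1}` and the
number of predicted elements. -/

set_option autoImplicit false

namespace Pool.Agent.HK41

open Finset

open scoped Classical in
/-- number of elements of `A` below `m` -/
noncomputable def cn (A : Set ℕ) (m : ℕ) : ℕ := Nat.count (fun x => x ∈ A) m

/-- the `k`-th element of `A` -/
noncomputable def el (A : Set ℕ) (k : ℕ) : ℕ := Nat.nth (fun x => x ∈ A) k

lemma cn_le (A : Set ℕ) (m : ℕ) : cn A m ≤ m := by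
  classical
  exact Nat.count_le (fun x => x ∈ A)

lemma cn_congr {A A' : Set ℕ} {m : ℕ} (h : ∀ k < m, (k ∈ A ↔ k ∈ A')) : cn A m = cn A' m := by
  classical
  unfold cn
  rw [Nat.count_eq_card_filter_range, Nat.count_eq_card_filter_range]
  congr 1
  refine filter_congr fun k hk => ?_
  exact h k (mem_range.1 hk)

lemma el_cn {A : Set ℕ} {m : ℕ} (h : m ∈ A) : el A (cn A m) = m := by
  classical
  exact Nat.nth_count (p := fun x => x ∈ A) h

lemma cn_el {A : Set ℕ} (h : A.Infinite) (t : ℕ) : cn A (el A t) = t := by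
  classical
  exact Nat.count_nth_of_infinite (p := fun x => x ∈ A) h t

lemma el_lt {A : Set ℕ} {m k : ℕ} (h : k < cn A m) : el A k < m := by
  classical
  exact Nat.nth_lt_of_lt_count (p := fun x => x ∈ A) h

lemma lt_card {A : Set ℕ} {m k : ℕ} (h : k < cn A m) :
    ∀ hf : (Set.ofPred (fun x => x ∈ A)).Finite, k < hf.toFinset.card := by
  classical
  intro hf
  exact h.trans_le (Nat.count_le_card (p := fun x => x ∈ A) hf m)

lemma el_mem {A : Set ℕ} {m k : ℕ} (h : k < cn A m) : el A k ∈ A := by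
  classical
  exact Nat.nth_mem (p := fun x => x ∈ A) k (lt_card h)

lemma cn_el' {A : Set ℕ} {m k : ℕ} (h : k < cn A m) : cn A (el A k) = k := by
  classical
  exact Nat.count_nth (p := fun x => x ∈ A) (lt_card h)

lemma el_congr {A A' : Set ℕ} {m k : ℕ} (h : ∀ k < m, (k ∈ A ↔ k ∈ A')) (hk : k < cn A m) :
    el A k = el A' k := by
  have h1 := el_lt hk
  have h2 := (h _ h1).1 (el_mem hk)
  have h3 : cn A' (el A k) = k := by
    rw [← cn_congr (A := A) (A' := A') (fun j hj => h j (hj.trans h1)), cn_el' hk]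
  have h4 := el_cn h2
  rw [h3] at h4
  exact h4.symm

/-- the elements of `A` below `m`, followed by `m` -/
noncomputable def sq (A : Set ℕ) (m : ℕ) (k : ℕ) : ℕ := by
  classical
  exact if k < cn A m then el A k else m

lemma sq_congr {A A' : Set ℕ} {m : ℕ} (h : ∀ k < m, (k ∈ A ↔ k ∈ A')) : sq A m = sq A' m := by
  funext k
  unfold sq
  rw [← cn_congr h]
  by_cases hk : k < cn A m
  · rw [if_pos hk, if_pos hk, el_congr h hk]
  · rw [if_neg hk, if_neg hk]

/-- A predicate on sequences which sees only the first terms and allows at most one next value. -/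
structure Predictor (P : ℕ → (ℕ → ℕ) → Prop) : Prop where
  congr : ∀ t s s', (∀ k ≤ t, s k = s' k) → P t s → P t s'
  unique : ∀ t s s', (∀ k < t, s k = s' k) → P t s → P t s' → s t = s' t

variable {P : ℕ → (ℕ → ℕ) → Prop}

/-- `m`, as the next element after those of `A` below `m`, is predicted. -/
def G (P : ℕ → (ℕ → ℕ) → Prop) (J : Finset ℕ) (A : Set ℕ) (m : ℕ) : Prop :=
  cn A m ∈ J ∧ P (cn A m) (sq A m)

lemma G_congr {J : Finset ℕ} {A A' : Set ℕ} {m : ℕ} (h : ∀ k < m, (k ∈ A ↔ k ∈ A')) :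
    G P J A m ↔ G P J A' m := by
  unfold G
  rw [cn_congr h, sq_congr h]

lemma cn_mono (A : Set ℕ) {m m' : ℕ} (h : m ≤ m') : cn A m ≤ cn A m' := by
  classical
  exact Nat.count_monotone (fun x => x ∈ A) h

lemma G_unique (hP : Predictor P) {J : Finset ℕ} {A : Set ℕ} {m m' : ℕ} (h : G P J A m)
    (h' : G P J A m') (e : cn A m = cn A m') : m = m' := by
  have h1 := h.2
  have h2 := h'.2
  rw [← e] at h2
  have := hP.unique _ _ _ (fun k hk => ?_) h1 h2
  · unfold sq at this
    rw [if_neg (lt_irrefl _), if_neg (by rw [← e]; exact lt_irrefl _)] at this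
    exact this
  · unfold sq
    rw [if_pos hk, if_pos (by rw [← e]; exact hk)]

/-- number of predicted elements of `A` below `M` -/
noncomputable def hit (P : ℕ → (ℕ → ℕ) → Prop) (J : Finset ℕ) (M : ℕ) (A : Set ℕ) : ℕ := by
  classical
  exact ((range M).filter (fun m => m ∈ A ∧ G P J A m)).card

lemma hit_congr {J : Finset ℕ} {M : ℕ} {A A' : Set ℕ} (h : ∀ k < M, (k ∈ A ↔ k ∈ A')) :
    hit P J M A = hit P J M A' := by
  classical
  unfold hit
  congr 1
  refine filter_congr fun m hm => ?_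
  have hm' := mem_range.1 hm
  rw [h m hm', G_congr (fun k hk => h k (hk.trans hm'))]

lemma hit_mono (J : Finset ℕ) (A : Set ℕ) : Monotone (fun M => hit P J M A) := by
  classical
  intro M M' h
  exact card_le_card (filter_subset_filter _ (range_subset_range.2 h))

/-- the predicted terms of the whole sequence are counted by `hit` -/
lemma ncard_le_hit (hP : Predictor P) {A : Set ℕ} (hA : A.Infinite) (J : Finset ℕ) :
    ∃ M, {t : ℕ | t ∈ J ∧ P t (el A)}.ncard ≤ hit P J M A := by
  classical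
  have hmono : StrictMono (el A) := Nat.nth_strictMono (p := fun x => x ∈ A) hA
  refine ⟨el A (J.sup id + 1), ?_⟩
  unfold hit
  rw [← Set.ncard_coe_finset]
  refine Set.ncard_le_ncard_of_injOn (el A) ?_ hmono.injective.injOn (Finset.finite_toSet _)
  rintro t ⟨ht, hPt⟩
  rw [mem_coe, mem_filter, mem_range]
  have e := cn_el hA t
  have hts : t < J.sup id + 1 := Nat.lt_succ_of_le (le_sup (f := id) ht)
  refine ⟨hmono hts, Nat.nth_mem_of_infinite (p := fun x => x ∈ A) hA t, ?_, ?_⟩
  · rw [e]; exact ht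
  · rw [e]
    refine hP.congr _ _ _ (fun k hk => ?_) hPt
    unfold sq
    rcases Nat.lt_or_ge k t with h | h
    · rw [if_pos (by rw [e]; exact h)]
    · rw [if_neg (by rw [e]; omega), show k = t by omega]

/-- weight of `B` as the random subset of `{0, ..., M - 1}` -/
noncomputable def wt (p : ℕ → ℝ) (M : ℕ) (B : Finset ℕ) : ℝ :=
  ∏ m ∈ range M, if m ∈ B then p m else 1 - p m

/-- the martingale -/
noncomputable def X (P : ℕ → (ℕ → ℕ) → Prop) (J : Finset ℕ) (lam : ℝ) (p : ℕ → ℝ) (M : ℕ)
    (B : Finset ℕ) : ℝ := by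
  classical
  exact ∏ m ∈ range M,
    if G P J (B : Set ℕ) m then (if m ∈ B then lam else 1) / (1 + (lam - 1) * p m) else 1

lemma mem_coe_insert {B : Finset ℕ} {M : ℕ} {m : ℕ} (hm : m < M) :
    ∀ k ≤ m, (k ∈ ((insert M B : Finset ℕ) : Set ℕ) ↔ k ∈ (B : Set ℕ)) := by
  intro k hk
  rw [mem_coe, mem_coe, mem_insert]
  constructor
  · rintro (h | h)
    · omega
    · exact h
  · exact Or.inr

theorem sum_wX (J : Finset ℕ) {lam : ℝ} (hlam : 1 ≤ lam) {p : ℕ → ℝ} (hp : ∀ m, 0 ≤ p m) (M : ℕ) :
    ∑ B ∈ (range M).powerset, wt p M B * X P J lam p M B = 1 := by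
  classical
  induction M with
  | zero => simp [wt, X]
  | succ M ih =>
    rw [range_add_one, sum_powerset_insert notMem_range_self, ← sum_add_distrib, ← ih]
    refine sum_congr rfl fun B hB => ?_
    have hMB : M ∉ B := fun h => by
      have := mem_range.1 (mem_powerset.1 hB h)
      omega
    have hw1 : wt p (M + 1) B = wt p M B * (1 - p M) := by
      unfold wt
      rw [prod_range_succ, if_neg hMB]
    have hw2 : wt p (M + 1) (insert M B) = wt p M B * p M := by
      unfold wt
      rw [prod_range_succ, if_pos (mem_insert_self M B)]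
      congr 1
      refine prod_congr rfl fun m hm => ?_
      have := mem_range.1 hm
      have e : m ∈ insert M B ↔ m ∈ B := by
        rw [mem_insert]
        constructor
        · rintro (h | h)
          · omega
          · exact h
        · exact Or.inr
      simp only [e]
    have hX1 : X P J lam p (M + 1) B = X P J lam p M B *
        (if G P J (B : Set ℕ) M then 1 / (1 + (lam - 1) * p M) else 1) := by
      unfold X
      rw [prod_range_succ, if_neg hMB]
    have hX2 : X P J lam p (M + 1) (insert M B) = X P J lam p M B *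
        (if G P J (B : Set ℕ) M then lam / (1 + (lam - 1) * p M) else 1) := by
      unfold X
      rw [prod_range_succ, if_pos (mem_insert_self M B)]
      congr 1
      · refine prod_congr rfl fun m hm => ?_
        have hm' := mem_range.1 hm
        have h1 := mem_coe_insert (B := B) hm'
        have e : m ∈ insert M B ↔ m ∈ B := by
          have := h1 m le_rfl
          rwa [mem_coe, mem_coe] at this
        have e2 : G P J ((insert M B : Finset ℕ) : Set ℕ) m ↔ G P J (B : Set ℕ) m :=
          G_congr fun k hk => h1 k hk.le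
        simp only [e, e2]
      · have e2 : G P J ((insert M B : Finset ℕ) : Set ℕ) M ↔ G P J (B : Set ℕ) M :=
          G_congr fun k hk => mem_coe_insert (B := B) hk k le_rfl
        simp only [e2]
    rw [hw1, hw2, hX1, hX2]
    have hpM : 0 < 1 + (lam - 1) * p M := by
      have := mul_nonneg (sub_nonneg.2 hlam) (hp M)
      linarith
    by_cases hG : G P J (B : Set ℕ) M
    · rw [if_pos hG, if_pos hG]
      have e : (1 - p M) * (1 / (1 + (lam - 1) * p M)) + p M * (lam / (1 + (lam - 1) * p M)) = 1 := by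
        rw [mul_one_div, mul_div_assoc', ← add_div, div_eq_one_iff_eq hpM.ne']
        ring
      linear_combination (wt p M B * X P J lam p M B) * e
    · rw [if_neg hG, if_neg hG]
      ring

open scoped Classical in
lemma two_pow_hit (J : Finset ℕ) {lam : ℝ} (hlam : 1 ≤ lam) {p : ℕ → ℝ} (hp : ∀ m, 0 ≤ p m) (M : ℕ)
    (B : Finset ℕ) :
    lam ^ hit P J M (B : Set ℕ) = X P J lam p M B *
      (∏ m ∈ range M, (if G P J (B : Set ℕ) m then 1 + (lam - 1) * p m else 1)) := by
  classical
  unfold hit X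
  rw [← prod_mul_distrib, ← prod_const, prod_filter]
  refine prod_congr rfl fun m _ => ?_
  have hpm : 0 < 1 + (lam - 1) * p m := by
    have := mul_nonneg (sub_nonneg.2 hlam) (hp m)
    linarith
  by_cases hG : G P J (B : Set ℕ) m
  · by_cases hm : m ∈ B
    · rw [if_pos ⟨mem_coe.2 hm, hG⟩, if_pos hG, if_pos hG, if_pos hm, div_mul_cancel₀ _ hpm.ne']
    · rw [if_neg (fun h => hm (mem_coe.1 h.1)), if_pos hG, if_pos hG, if_neg hm,
        div_mul_cancel₀ _ hpm.ne']
  · rw [if_neg (fun h => hG h.2), if_neg hG, if_neg hG, mul_one]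

open scoped Classical in
lemma prod_G_le (hP : Predictor P) (J : Finset ℕ) {lam : ℝ} (hlam : 1 ≤ lam) {p ε : ℕ → ℝ}
    (hp : ∀ m, 0 ≤ p m) (hε : Antitone ε) (hpe : ∀ m, p m ≤ ε m) (M : ℕ) (A : Set ℕ) :
    ∏ m ∈ range M, (if G P J A m then 1 + (lam - 1) * p m else 1)
      ≤ ∏ t ∈ J, (1 + (lam - 1) * ε t) := by
  have hl0 : 0 ≤ lam - 1 := sub_nonneg.2 hlam
  have hε0 : ∀ m, 0 ≤ ε m := fun m => (hp m).trans (hpe m)
  have e1 : ∏ m ∈ range M, (if G P J A m then 1 + (lam - 1) * p m else 1)
      = ∏ m ∈ (range M).filter (G P J A), (1 + (lam - 1) * p m) := by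
    rw [prod_filter]
  have e2 : ∏ m ∈ (range M).filter (G P J A), (1 + (lam - 1) * p m)
      ≤ ∏ m ∈ (range M).filter (G P J A), (1 + (lam - 1) * ε (cn A m)) := by
    refine prod_le_prod (fun m _ => by have := mul_nonneg hl0 (hp m); linarith) fun m _ => ?_
    have h1 := (hpe m).trans (hε (cn_le A m))
    have := mul_le_mul_of_nonneg_left h1 hl0
    linarith
  have e3 : ∏ m ∈ (range M).filter (G P J A), (1 + (lam - 1) * ε (cn A m))
      = ∏ t ∈ ((range M).filter (G P J A)).image (cn A), (1 + (lam - 1) * ε t) := by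
    rw [prod_image]
    intro a ha b hb hab
    exact G_unique hP (mem_filter.1 ha).2 (mem_filter.1 hb).2 hab
  have e4 : ∏ t ∈ ((range M).filter (G P J A)).image (cn A), (1 + (lam - 1) * ε t)
      ≤ ∏ t ∈ J, (1 + (lam - 1) * ε t) := by
    refine prod_le_prod_of_subset_of_one_le ?_ ?_ ?_
    · intro t ht
      obtain ⟨m, hm, rfl⟩ := mem_image.1 ht
      exact (mem_filter.1 hm).2.1
    · intro t _
      have := mul_nonneg hl0 (hε0 t)
      linarith
    · intro t _ _
      have := mul_nonneg hl0 (hε0 t)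
      linarith
  exact (e1.le.trans e2).trans (e3.le.trans e4)

open scoped Classical in
theorem sum_wt_hit (hP : Predictor P) (J : Finset ℕ) {lam : ℝ} (hlam : 1 ≤ lam) {p ε : ℕ → ℝ}
    (hp : ∀ m, 0 ≤ p m) (hp1 : ∀ m, p m ≤ 1) (hε : Antitone ε) (hpe : ∀ m, p m ≤ ε m) (M : ℕ)
    (R : ℕ) :
    ∑ B ∈ (range M).powerset.filter (fun B : Finset ℕ => R ≤ hit P J M (B : Set ℕ)), wt p M B
      ≤ (lam ^ R)⁻¹ * ∏ t ∈ J, (1 + (lam - 1) * ε t) := by
  have hl0 : 0 ≤ lam - 1 := sub_nonneg.2 hlam
  have hlpos : 0 < lam := by linarith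
  have hw0 : ∀ B, 0 ≤ wt p M B := by
    intro B
    unfold wt
    refine prod_nonneg fun m _ => ?_
    split_ifs
    · exact hp m
    · have := hp1 m; linarith
  have hX0 : ∀ B, 0 ≤ X P J lam p M B := by
    intro B
    unfold X
    refine prod_nonneg fun m _ => ?_
    have := mul_nonneg hl0 (hp m)
    split_ifs <;> positivity
  have h1 : ∑ B ∈ (range M).powerset.filter (fun B : Finset ℕ => R ≤ hit P J M (B : Set ℕ)),
        wt p M B
      ≤ ∑ B ∈ (range M).powerset.filter (fun B : Finset ℕ => R ≤ hit P J M (B : Set ℕ)),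
          (lam ^ R)⁻¹ * ((∏ t ∈ J, (1 + (lam - 1) * ε t)) * (wt p M B * X P J lam p M B)) := by
    refine sum_le_sum fun B hB => ?_
    have hR := (mem_filter.1 hB).2
    have h2 : lam ^ hit P J M (B : Set ℕ)
        ≤ X P J lam p M B * ∏ t ∈ J, (1 + (lam - 1) * ε t) := by
      rw [two_pow_hit J hlam hp M B]
      exact mul_le_mul_of_nonneg_left (prod_G_le hP J hlam hp hε hpe M _) (hX0 B)
    have h3 : 1 ≤ (lam ^ R)⁻¹ * lam ^ hit P J M (B : Set ℕ) := by
      rw [← div_eq_inv_mul, one_le_div (pow_pos hlpos R)]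
      exact pow_le_pow_right₀ hlam hR
    have h4 : (lam ^ R)⁻¹ * lam ^ hit P J M (B : Set ℕ)
        ≤ (lam ^ R)⁻¹ * (X P J lam p M B * ∏ t ∈ J, (1 + (lam - 1) * ε t)) :=
      mul_le_mul_of_nonneg_left h2 (inv_pos.2 (pow_pos hlpos R)).le
    have h5 := mul_le_mul_of_nonneg_left (h3.trans h4) (hw0 B)
    rw [mul_one] at h5
    refine h5.trans (le_of_eq ?_)
    ring
  have h6 : ∑ B ∈ (range M).powerset.filter (fun B : Finset ℕ => R ≤ hit P J M (B : Set ℕ)),
      (lam ^ R)⁻¹ * ((∏ t ∈ J, (1 + (lam - 1) * ε t)) * (wt p M B * X P J lam p M B))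
      ≤ ∑ B ∈ (range M).powerset,
        (lam ^ R)⁻¹ * ((∏ t ∈ J, (1 + (lam - 1) * ε t)) * (wt p M B * X P J lam p M B)) := by
    refine sum_le_sum_of_subset_of_nonneg (filter_subset _ _) fun B _ _ => ?_
    refine mul_nonneg (inv_pos.2 (pow_pos hlpos R)).le (mul_nonneg (prod_nonneg fun t _ => ?_)
      (mul_nonneg (hw0 B) (hX0 B)))
    have := mul_nonneg hl0 ((hp t).trans (hpe t))
    linarith
  refine (h1.trans h6).trans (le_of_eq ?_)
  rw [← mul_sum, ← mul_sum, sum_wX J hlam hp M, mul_one]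

end Pool.Agent.HK41
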