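import Pool.Agent.HK41.Gen
import Pool.Agent.CR53.Main

/-! Zeros of the Hankel determinants in Cramer's random model. -/

set_option autoImplicit false

namespace Pool.Agent.HK41

open MeasureTheory ProbabilityTheory Filter Topology Finset

/-- bound for the probabilities of Cramer's model -/
noncomputable def ce (t : ℕ) : ℝ := if t < 3 then 1 else 1 / Real.log t

lemma one_lt_log {t : ℕ} (h : 3 ≤ t) : 1 < Real.log t := by
  have h3 : (3 : ℝ) ≤ t := by exact_mod_cast h
  have h1 : Real.log (Real.exp 1) < Real.log t := by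
    refine Real.log_lt_log (Real.exp_pos 1) ?_
    have := Real.exp_one_lt_d9
    linarith
  rwa [Real.log_exp] at h1

lemma ce_of {t : ℕ} (h : 3 ≤ t) : ce t = 1 / Real.log t := by
  unfold ce
  rw [if_neg (by omega)]

lemma ce_le_one (t : ℕ) : ce t ≤ 1 := by
  unfold ce
  split_ifs with h
  · exact le_rfl
  · have := one_lt_log (not_lt.1 h)
    rw [div_le_one (by linarith)]
    exact this.le

lemma ce_nonneg (t : ℕ) : 0 ≤ ce t := by
  unfold ce
  split_ifs with h
  · exact zero_le_one
  · have := one_lt_log (not_lt.1 h)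
    positivity

lemma ce_anti : Antitone ce := by
  intro a b hab
  rcases Nat.lt_or_ge a 3 with ha | ha
  · have : ce a = 1 := by unfold ce; rw [if_pos ha]
    rw [this]
    exact ce_le_one b
  · rw [ce_of ha, ce_of (ha.trans hab)]
    have h1 := one_lt_log ha
    refine one_div_le_one_div_of_le (by linarith) ?_
    refine Real.log_le_log (by exact_mod_cast (by omega : 0 < a)) (by exact_mod_cast hab)

/-- the events of the model -/
def cE (m : ℕ) : Set (ℕ → Bool) := {ω | ω m = true}

lemma c_le (m : ℕ) : (Measure.infinitePi CR53.coin).real (cE m) ≤ ce m := by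
  rcases Nat.lt_or_ge m 3 with h | h
  · have : ce m = 1 := by unfold ce; rw [if_pos h]
    rw [this]
    exact measureReal_le_one
  · rw [ce_of h]
    exact (CR53.model_facts.2.2 m h).le

lemma c_not_summable : ¬ Summable (fun m => (Measure.infinitePi CR53.coin).real (cE m)) := by
  intro h
  have h1 := (summable_nat_add_iff 3).2 h
  have h2 : Summable (fun m : ℕ => 1 / ((m + 3 : ℕ) : ℝ)) := by
    refine Summable.of_nonneg_of_le (fun m => by positivity) (fun m => ?_) h1
    have h4 : (Measure.infinitePi CR53.coin).real (cE (m + 3)) = 1 / Real.log ((m + 3 : ℕ) : ℝ) :=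
      CR53.model_facts.2.2 (m + 3) (by omega)
    rw [h4]
    have h5 := one_lt_log (t := m + 3) (by omega)
    refine one_div_le_one_div_of_le (by linarith) ?_
    have h6 := Real.log_le_sub_one_of_pos (x := ((m + 3 : ℕ) : ℝ)) (by positivity)
    linarith
  exact Real.not_summable_one_div_natCast ((summable_nat_add_iff 3).1 h2)

lemma rs_c (ω : ℕ → Bool) : rs cE ω = {m | ω m = true} := rfl

lemma c_inf : ∀ᵐ ω ∂(Measure.infinitePi CR53.coin), (rs cE ω).Infinite :=
  infinite_general CR53.model_facts.1 CR53.model_facts.2.1 c_not_summable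

/-- `∑_{t < T} ce t ≤ K + T / log K` -/
lemma sum_ce (T K : ℕ) (hK : 3 ≤ K) :
    ∑ t ∈ range T, ce t ≤ K + T * (1 / Real.log K) := by
  have h1 : ∀ t ∈ range T, ce t ≤ (if t < K then (1 : ℝ) else 0) + 1 / Real.log K := by
    intro t _
    split_ifs with h
    · have := ce_le_one t
      have h2 := one_lt_log hK
      have h3 : 0 < 1 / Real.log K := by positivity
      linarith
    · have := ce_anti (not_lt.1 h)
      rw [ce_of hK] at this
      linarith
  refine (sum_le_sum h1).trans ?_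
  rw [sum_add_distrib, sum_const, card_range, nsmul_eq_mul]
  refine add_le_add_left ?_ _
  rw [sum_boole]
  have h4 : ((range T).filter (fun t => t < K)).card ≤ K := by
    have : (range T).filter (fun t => t < K) ⊆ range K := by
      intro t ht
      exact mem_range.2 (mem_filter.1 ht).2
    exact (card_le_card this).trans (card_range K).le
  exact_mod_cast h4

lemma num_a : ∀ᶠ N : ℕ in atTop,
    2 * ∑ t ∈ range (2 * N), ce t + 3 * Real.log N ≤ 5 * N / Real.log N := by
  have hlog : ∀ᶠ N : ℕ in atTop, Real.log N ≤ (N : ℝ) ^ (1 / 20 : ℝ) := by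
    have h1 := (isLittleO_log_rpow_atTop (r := (1 / 20 : ℝ)) (by norm_num)).bound
      (show (0 : ℝ) < 1 by norm_num)
    have h2 := tendsto_natCast_atTop_atTop (R := ℝ) |>.eventually h1
    filter_upwards [h2, eventually_ge_atTop 1] with N hN hN1
    rw [Real.norm_eq_abs, Real.norm_eq_abs, one_mul,
      abs_of_nonneg (Real.rpow_nonneg (Nat.cast_nonneg N) _)] at hN
    exact (le_abs_self _).trans hN
  have hbig : ∀ᶠ N : ℕ in atTop, (40 : ℝ) ≤ (N : ℝ) ^ (1 / 20 : ℝ) :=
    ((tendsto_rpow_atTop (by norm_num : (0 : ℝ) < 1 / 20)).comp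
      (tendsto_natCast_atTop_atTop (R := ℝ))).eventually_ge_atTop 40
  filter_upwards [hlog, hbig, eventually_ge_atTop 3] with N h1 h2 h3
  set y : ℝ := (N : ℝ) ^ (1 / 20 : ℝ) with hy
  have hN3 : (3 : ℝ) ≤ N := by exact_mod_cast h3
  have hN0 : (0 : ℝ) < N := by linarith
  have hyN : y ^ 20 = N := by
    rw [hy, ← Real.rpow_natCast, ← Real.rpow_mul hN0.le]
    norm_num
  have hL : 1 < Real.log N := one_lt_log h3
  have hy0 : 0 < y := by linarith
  -- the cut
  have hc : ∃ K : ℕ, 3 ≤ K ∧ (K : ℝ) ≤ 2 * y ^ 18 ∧ 9 / 10 * Real.log N ≤ Real.log K := by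
    refine ⟨⌈y ^ 18⌉₊, ?_, ?_, ?_⟩
    · have h4 : (40 : ℝ) ^ 18 ≤ y ^ 18 := pow_le_pow_left₀ (by norm_num) h2 18
      have h5 : (3 : ℝ) ≤ (⌈y ^ 18⌉₊ : ℝ) := by
        refine le_trans ?_ (Nat.le_ceil _)
        refine le_trans ?_ h4
        norm_num
      exact_mod_cast h5
    · have h4 := (Nat.ceil_lt_add_one (pow_nonneg hy0.le 18)).le
      have h5 : (1 : ℝ) ≤ y ^ 18 := one_le_pow₀ (by linarith)
      linarith
    · have h4 : Real.log (y ^ 18) ≤ Real.log (⌈y ^ 18⌉₊ : ℝ) :=
        Real.log_le_log (pow_pos hy0 18) (Nat.le_ceil _)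
      refine le_trans (le_of_eq ?_) h4
      rw [← hyN, Real.log_pow, Real.log_pow]
      push_cast
      ring
  obtain ⟨K, hK3, hK1, hK2⟩ := hc
  have hs := sum_ce (2 * N) K hK3
  have h6 : (1 : ℝ) / Real.log K ≤ 10 / 9 * (1 / Real.log N) := by
    have : (10 : ℝ) / 9 * (1 / Real.log N) = 1 / (9 / 10 * Real.log N) := by
      field_simp
    rw [this]
    exact one_div_le_one_div_of_le (by linarith) hK2
  have h7 : ((2 * N : ℕ) : ℝ) * (1 / Real.log K) ≤ 20 / 9 * (N / Real.log N) := by
    have h8 := mul_le_mul_of_nonneg_left h6 (by positivity : (0 : ℝ) ≤ ((2 * N : ℕ) : ℝ))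
    refine h8.trans (le_of_eq ?_)
    push_cast
    ring
  have h9 : y ^ 19 ≤ N / Real.log N := by
    rw [le_div_iff₀ (by linarith)]
    calc y ^ 19 * Real.log N ≤ y ^ 19 * y := mul_le_mul_of_nonneg_left h1 (by positivity)
      _ = y ^ 20 := by ring
      _ = N := hyN
  have h10 : (40 : ℝ) * y ^ 18 ≤ y ^ 19 := by
    have : y ^ 19 = y * y ^ 18 := by ring
    rw [this]
    exact mul_le_mul_of_nonneg_right h2 (by positivity)
  have h11 : y ≤ y ^ 18 := le_self_pow₀ (by linarith) (by norm_num)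
  have h12 : (5 : ℝ) * N / Real.log N = 5 * (N / Real.log N) := by ring
  rw [h12]
  linarith

/-- number of zeros -/
theorem cram_zeros : ∀ᵐ ω ∂(Measure.infinitePi CR53.coin), ∀ᶠ N : ℕ in atTop,
    ({n : ℕ | n ≤ N ∧ hd {m | ω m = true} n = 0}.ncard : ℝ) ≤ 5 * N / Real.log N := by
  filter_upwards [zeros_general CR53.model_facts.1 CR53.model_facts.2.1 ce_anti c_le, c_inf]
    with ω h1 h2
  filter_upwards [h1 h2, num_a] with N h3 h4
  exact h3.trans h4

/-- probability of a zero -/
theorem cram_prob : ∀ᶠ n : ℕ in atTop,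
    (Measure.infinitePi CR53.coin).real {ω | hd {m | ω m = true} n = 0} ≤ 3 / Real.log n := by
  have hL : ∀ᶠ n : ℕ in atTop, (7 : ℝ) ≤ Real.log n :=
    (Real.tendsto_log_atTop.comp (tendsto_natCast_atTop_atTop (R := ℝ))).eventually_ge_atTop 7
  filter_upwards [hL, eventually_ge_atTop 6] with n hn h6
  have h3 : 3 ≤ n / 2 := by omega
  have hx := one_lt_log h3
  have hce : ce (n / 2) = 1 / Real.log ((n / 2 : ℕ) : ℝ) := ce_of h3
  have h1 : ce (n / 2) < 1 := by
    rw [hce, div_lt_one (by linarith)]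
    exact hx
  refine (prob_zero_general CR53.model_facts.1 CR53.model_facts.2.1 ce_anti c_le c_inf n h1).trans ?_
  rw [hce]
  set x := Real.log ((n / 2 : ℕ) : ℝ) with hxd
  have hxl : Real.log n - 1.2 ≤ x := by
    have h4 : (n : ℝ) ≤ 3 * ((n / 2 : ℕ) : ℝ) := by
      have : n ≤ 3 * (n / 2) := by omega
      exact_mod_cast this
    have h5 : (0 : ℝ) < ((n / 2 : ℕ) : ℝ) := by exact_mod_cast (by omega : 0 < n / 2)
    have h7 := Real.log_le_log (by exact_mod_cast (by omega : 0 < n)) h4
    rw [Real.log_mul (by norm_num) h5.ne'] at h7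
    have h8 : Real.log 3 < 1.2 := by
      have h9 : Real.log 3 < Real.log 4 := Real.log_lt_log (by norm_num) (by norm_num)
      have h10 : (3 : ℝ) < Real.exp 1.2 := by
        have h11 : Real.exp 1.2 = Real.exp 1 * Real.exp 0.2 := by
          rw [← Real.exp_add]; norm_num
        have h12 := Real.exp_one_gt_d9
        have h13 := Real.add_one_le_exp (0.2 : ℝ)
        rw [h11]
        nlinarith
      rw [Real.log_lt_iff_lt_exp (by norm_num)]
      exact h10
    linarith
  have hx0 : 0 < x - 1 := by linarith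
  have e : 2 * (1 / x) / (1 - 1 / x) = 2 / (x - 1) := by
    have : x ≠ 0 := by linarith
    have h14 : x - 1 ≠ 0 := hx0.ne'
    have h15 : 1 - 1 / x ≠ 0 := by
      rw [one_sub_div this]
      exact div_ne_zero h14 this
    rw [div_eq_div_iff h15 h14]
    field_simp
  rw [e, div_le_div_iff₀ hx0 (by linarith)]
  linarith

/-- length of the forbidden runs of predicted terms -/
noncomputable def kk (t : ℕ) : ℕ := ⌈3 / 2 * Real.log t / Real.log (Real.log t)⌉₊

lemma runs_pred : ∀ᵐ ω ∂(Measure.infinitePi CR53.coin), ∀ᶠ t : ℕ in atTop,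
    ¬ ∀ j ∈ Ico t (t + kk t), PP j (el (rs cE ω)) := by
  let F : ℕ → Set (ℕ → Bool) := fun t =>
    {ω | (rs cE ω).Infinite ∧ ∀ j ∈ Ico (t + 3) (t + 3 + kk (t + 3)), PP j (el (rs cE ω))}
  have hb : ∀ t, (Measure.infinitePi CR53.coin) (F t)
      ≤ ENNReal.ofReal (1 / ((t + 3 : ℕ) : ℝ) ^ (3 / 2 : ℝ)) := by
    intro t
    refine (all_predicted_le CR53.model_facts.1 CR53.model_facts.2.1 predictor_PP ce_anti c_le
      _).trans (ENNReal.ofReal_le_ofReal ?_)
    have h3 : 3 ≤ t + 3 := by omega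
    have hl := one_lt_log h3
    set x : ℝ := ((t + 3 : ℕ) : ℝ) with hx
    have hx0 : 0 < x := by rw [hx]; positivity
    have hll : 0 < Real.log (Real.log x) := Real.log_pos hl
    have h1 : ∏ j ∈ Ico (t + 3) (t + 3 + kk (t + 3)), ce j ≤ (1 / Real.log x) ^ kk (t + 3) := by
      have hcard : (Ico (t + 3) (t + 3 + kk (t + 3))).card = kk (t + 3) := by
        rw [Nat.card_Ico]; omega
      conv_rhs => rw [← hcard, ← prod_const]
      refine prod_le_prod (fun j _ => ce_nonneg j) fun j hj => ?_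
      have := ce_anti (mem_Ico.1 hj).1
      rwa [ce_of h3] at this
    refine h1.trans ?_
    rw [one_div, inv_pow, ← one_div]
    refine one_div_le_one_div_of_le (Real.rpow_pos_of_pos hx0 _) ?_
    have h2 : (3 / 2 : ℝ) * Real.log x ≤ (kk (t + 3) : ℝ) * Real.log (Real.log x) := by
      rw [← div_le_iff₀ hll]
      exact Nat.le_ceil _
    have e1 : x ^ (3 / 2 : ℝ) = Real.exp (3 / 2 * Real.log x) := by
      rw [Real.rpow_def_of_pos hx0, mul_comm]
    have e2 : (Real.log x) ^ kk (t + 3) = Real.exp ((kk (t + 3) : ℝ) * Real.log (Real.log x)) := by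
      rw [Real.exp_nat_mul, Real.exp_log (by linarith)]
    rw [e1, e2]
    exact Real.exp_le_exp.2 h2
  have hsum : (∑' t : ℕ, (Measure.infinitePi CR53.coin) (F t)) ≠ ⊤ := by
    have h1 : Summable (fun t : ℕ => 1 / ((t + 3 : ℕ) : ℝ) ^ (3 / 2 : ℝ)) :=
      (summable_nat_add_iff 3).2 (Real.summable_one_div_nat_rpow.2 (by norm_num : (1:ℝ) < 3 / 2))
    exact ne_top_of_le_ne_top h1.tsum_ofReal_ne_top (ENNReal.tsum_le_tsum hb)
  filter_upwards [ae_eventually_notMem hsum, c_inf] with ω hω hinf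
  obtain ⟨N0, hN0⟩ := eventually_atTop.1 hω
  filter_upwards [eventually_ge_atTop (N0 + 3)] with t ht hall
  obtain ⟨k, rfl⟩ : ∃ k, t = k + 3 := ⟨t - 3, by omega⟩
  exact hN0 k (by omega) ⟨hinf, hall⟩

lemma num_d : ∀ᶠ N : ℕ in atTop, ∀ m : ℕ, m ≤ N →
    kk (m + N) ≤ ⌊2 * Real.log N / Real.log (Real.log N)⌋₊ := by
  have hL : ∀ᶠ n : ℕ in atTop, (13 : ℝ) ≤ Real.log n :=
    (Real.tendsto_log_atTop.comp (tendsto_natCast_atTop_atTop (R := ℝ))).eventually_ge_atTop 13
  filter_upwards [hL, eventually_ge_atTop 1] with N hN h1 m hm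
  have hN0 : (0 : ℝ) < N := by exact_mod_cast h1
  set L := Real.log N with hLd
  have hll : 0 < Real.log L := Real.log_pos (by linarith)
  have h2 : Real.log ((m + N : ℕ) : ℝ) ≤ L + Real.log 2 := by
    have h3 : ((m + N : ℕ) : ℝ) ≤ N * 2 := by
      have : m + N ≤ N * 2 := by omega
      exact_mod_cast this
    have h4 := Real.log_le_log (by exact_mod_cast (by omega : 0 < m + N)) h3
    rwa [Real.log_mul hN0.ne' (by norm_num)] at h4
  have h5 : L ≤ Real.log ((m + N : ℕ) : ℝ) :=
    Real.log_le_log hN0 (by exact_mod_cast (by omega : N ≤ m + N))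
  have h6 : Real.log L ≤ Real.log (Real.log ((m + N : ℕ) : ℝ)) := Real.log_le_log (by linarith) h5
  have hl2 := Real.log_two_lt_d9
  have h7 : 3 / 2 * Real.log ((m + N : ℕ) : ℝ) / Real.log (Real.log ((m + N : ℕ) : ℝ))
      ≤ 3 / 2 * (L + Real.log 2) / Real.log L := by
    refine div_le_div₀ ?_ ?_ hll h6
    · have := Real.log_two_gt_d9
      linarith
    · linarith
  have h8 : 2 * Real.log L ≤ L / 4 + 2.17 := by
    have h9 := Real.log_le_sub_one_of_pos (x := L / 8) (by linarith)
    rw [Real.log_div (by linarith) (by norm_num)] at h9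
    have h10 : Real.log 8 = 3 * Real.log 2 := by
      rw [show (8 : ℝ) = 2 ^ 3 by norm_num, Real.log_pow]
      norm_num
    rw [h10] at h9
    linarith
  have h11 : 3 / 2 * (L + Real.log 2) / Real.log L + 1 ≤ 2 * L / Real.log L - 1 := by
    have h12 : 3 / 2 * (L + Real.log 2) / Real.log L + 1
        = (3 / 2 * (L + Real.log 2) + Real.log L) / Real.log L := by
      field_simp
    have h13 : 2 * L / Real.log L - 1 = (2 * L - Real.log L) / Real.log L := by
      field_simp
    rw [h12, h13]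
    refine div_le_div_of_nonneg_right ?_ hll.le
    linarith
  refine Nat.le_floor ?_
  unfold kk
  have h14 := (Nat.ceil_lt_add_one (show 0 ≤ 3 / 2 * Real.log ((m + N : ℕ) : ℝ)
    / Real.log (Real.log ((m + N : ℕ) : ℝ)) from div_nonneg (by linarith) (by linarith))).le
  linarith

/-- nonzero determinants in short intervals -/
theorem cram_runs : ∀ᵐ ω ∂(Measure.infinitePi CR53.coin), ∀ᶠ N : ℕ in atTop,
    ∃ n : ℕ, N < n ∧ (n : ℝ) ≤ N + 2 * Real.log N / Real.log (Real.log N) ∧
      hd {m | ω m = true} n ≠ 0 := by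
  filter_upwards [runs_pred] with ω hω
  obtain ⟨N0, hN0⟩ := eventually_atTop.1 hω
  have hL : ∀ᶠ n : ℕ in atTop, (13 : ℝ) ≤ Real.log n :=
    (Real.tendsto_log_atTop.comp (tendsto_natCast_atTop_atTop (R := ℝ))).eventually_ge_atTop 13
  filter_upwards [num_d, eventually_ge_atTop N0, hL] with N h1 h2 h3
  classical
  by_contra hcon
  push Not at hcon
  set K := ⌊2 * Real.log N / Real.log (Real.log N)⌋₊ with hK
  have hK0 : 0 ≤ 2 * Real.log N / Real.log (Real.log N) :=
    div_nonneg (by linarith) (Real.log_pos (by linarith)).le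
  have hz : (hank (qs (rs cE ω)) 0).det ≠ 0 := by
    rw [Matrix.det_fin_zero]; exact one_ne_zero
  let m := Nat.findGreatest (fun j => (hank (qs (rs cE ω)) j).det ≠ 0) N
  have hmle : m ≤ N := Nat.findGreatest_le _
  have hms : (hank (qs (rs cE ω)) m).det ≠ 0 :=
    Nat.findGreatest_spec (P := fun j => (hank (qs (rs cE ω)) j).det ≠ 0) (Nat.zero_le N) hz
  have hmg : ∀ j, m < j → j ≤ N + K → (hank (qs (rs cE ω)) j).det = 0 := by
    intro j h4 h5
    rcases Nat.lt_or_ge N j with h6 | h6
    · refine (hd_zero_iff _ _).1 (hcon j h6 ?_)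
      have h7 : (K : ℝ) ≤ 2 * Real.log N / Real.log (Real.log N) := Nat.floor_le hK0
      have h8 : (j : ℝ) ≤ N + K := by exact_mod_cast h5
      linarith
    · by_contra h7
      exact Nat.findGreatest_is_greatest h4 h6 h7
  refine hN0 (m + N) (by omega) fun j hj => ?_
  have hj' := mem_Ico.1 hj
  have hk := h1 m hmle
  exact run_pd hms hmg (by omega) (by omega) (by omega)

end Pool.Agent.HK41
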