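import Mathlib

/-! Hankel determinants and minimal recurrences. -/

set_option autoImplicit false

namespace Pool.Agent.HK41

open Finset Polynomial

variable {K : Type*} [Field K]

/-- The Hankel matrix `(s (i + j))` of size `n`. -/
def hank (s : ℕ → K) (n : ℕ) : Matrix (Fin n) (Fin n) K := Matrix.of fun i j => s (i + j)

/-- the functional `X ^ j ↦ s j` -/
noncomputable def fn (s : ℕ → K) : K[X] →ₗ[K] K := (Polynomial.basisMonomials K).constr K s

lemma fn_X (s : ℕ → K) (j : ℕ) : fn s (X ^ j) = s j := by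
  have h := (Polynomial.basisMonomials K).constr_basis K s j
  rw [Polynomial.coe_basisMonomials] at h
  rw [X_pow_eq_monomial]
  exact h

/-- expansion along the coefficients of the second factor -/
lemma fn_mul (s : ℕ → K) (p v : K[X]) {n : ℕ} (hv : v.natDegree < n) :
    fn s (p * v) = ∑ i ∈ range n, v.coeff i * fn s (X ^ i * p) := by
  conv_lhs => rw [v.as_sum_range' n hv, mul_sum, map_sum]
  refine sum_congr rfl fun i _ => ?_
  rw [← C_mul_X_pow_eq_monomial, show p * (C (v.coeff i) * X ^ i) = (v.coeff i) • (X ^ i * p) by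
    rw [smul_eq_C_mul]; ring, map_smul, smul_eq_mul]

/-- a polynomial from its first `n` coefficients -/
noncomputable def pol {n : ℕ} (c : Fin n → K) : K[X] := ∑ i : Fin n, C (c i) * X ^ (i : ℕ)

lemma pol_coeff {n : ℕ} (c : Fin n → K) (i : Fin n) : (pol c).coeff i = c i := by
  unfold pol
  rw [finset_sum_coeff, sum_eq_single i]
  · simp
  · intro b _ hb
    rw [coeff_C_mul, coeff_X_pow, if_neg, mul_zero]
    intro h
    exact hb (Fin.ext h.symm)
  · intro h; exact absurd (mem_univ i) h

lemma pol_degree {n : ℕ} (c : Fin n → K) : (pol c).degree < n := by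
  unfold pol
  refine (degree_sum_le _ _).trans_lt ?_
  rw [Finset.sup_lt_iff (by exact_mod_cast WithBot.bot_lt_coe n)]
  intro i _
  refine (degree_C_mul_X_pow_le _ _).trans_lt ?_
  exact_mod_cast i.2

lemma fn_pol (s : ℕ → K) {n : ℕ} (c : Fin n → K) (j : ℕ) :
    fn s (X ^ j * pol c) = ∑ i : Fin n, c i * s (j + i) := by
  unfold pol
  rw [mul_sum, map_sum]
  refine sum_congr rfl fun i _ => ?_
  rw [show (X : K[X]) ^ j * (C (c i) * X ^ (i : ℕ)) = (c i) • X ^ (j + (i : ℕ)) by
    rw [smul_eq_C_mul, pow_add]; ring, map_smul, fn_X, smul_eq_mul]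

lemma mulVec_hank (s : ℕ → K) {n : ℕ} (c : Fin n → K) (j : Fin n) :
    (hank s n).mulVec c j = ∑ i : Fin n, c i * s (j + i) := by
  unfold hank Matrix.mulVec dotProduct
  refine sum_congr rfl fun i _ => ?_
  simp [mul_comm]

/-- (F2) -/
lemma eq_zero_of_fn {s : ℕ → K} {m : ℕ} (hm : (hank s m).det ≠ 0) {w : K[X]} (hw : w.degree < m)
    (h : ∀ j < m, fn s (X ^ j * w) = 0) : w = 0 := by
  have e : w = pol (fun i : Fin m => w.coeff i) := by
    ext k
    by_cases hk : k < m
    · exact (pol_coeff (fun i : Fin m => w.coeff i) ⟨k, hk⟩).symm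
    · have h1 : w.coeff k = 0 := coeff_eq_zero_of_degree_lt (hw.trans_le (by exact_mod_cast not_lt.1 hk))
      have h2 : (pol (fun i : Fin m => w.coeff i)).coeff k = 0 :=
        coeff_eq_zero_of_degree_lt ((pol_degree _).trans_le (by exact_mod_cast not_lt.1 hk))
      rw [h1, h2]
  have h3 : (hank s m).mulVec (fun i : Fin m => w.coeff i) = 0 := by
    ext j
    rw [mulVec_hank, ← fn_pol, ← e]
    exact h j j.2
  have h4 := Matrix.eq_zero_of_mulVec_eq_zero hm h3
  rw [e, h4]
  unfold pol
  simp

/-- (F1) -/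
lemma exists_of_det {s : ℕ → K} {n : ℕ} (h0 : (hank s n).det = 0) :
    ∃ v : K[X], v ≠ 0 ∧ v.degree < n ∧ ∀ j < n, fn s (X ^ j * v) = 0 := by
  obtain ⟨c, hc, h⟩ := Matrix.exists_mulVec_eq_zero_iff.2 h0
  refine ⟨pol c, ?_, pol_degree c, fun j hj => ?_⟩
  · intro h1
    apply hc
    ext i
    rw [← pol_coeff c i, h1]
    simp
  · rw [fn_pol]
    have := congrFun h ⟨j, hj⟩
    rw [mulVec_hank] at this
    exact this

/-- (F3) -/
lemma exists_rec {s : ℕ → K} {m : ℕ} (hm : (hank s m).det ≠ 0) :
    ∃ c : Fin m → K, ∀ j < m, s (j + m) = ∑ l : Fin m, c l * s (j + l) := by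
  have hu : IsUnit (hank s m).det := isUnit_iff_ne_zero.2 hm
  refine ⟨(hank s m)⁻¹.mulVec (fun j : Fin m => s (j + m)), fun j hj => ?_⟩
  have h := mulVec_hank s ((hank s m)⁻¹.mulVec (fun j : Fin m => s (j + m))) ⟨j, hj⟩
  rw [Matrix.mulVec_mulVec, Matrix.mul_nonsing_inv _ hu, Matrix.one_mulVec] at h
  exact h

lemma rec_unique {s : ℕ → K} {m : ℕ} (hm : (hank s m).det ≠ 0) {c c' : Fin m → K}
    (h : ∀ j < m, ∑ l : Fin m, c l * s (j + l) = ∑ l : Fin m, c' l * s (j + l)) : c = c' := by
  have h1 : (hank s m).mulVec (c - c') = 0 := by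
    ext j
    rw [mulVec_hank]
    simp only [Pi.sub_apply, sub_mul, sum_sub_distrib, Pi.zero_apply]
    rw [h j j.2, sub_self]
  have h2 := Matrix.eq_zero_of_mulVec_eq_zero hm h1
  exact sub_eq_zero.1 h2

/-- If `D_m ≠ 0` and `D_j = 0` for `m < j ≤ n` then the recurrence of order `m` is valid up to
`s (n - 1 + m)`. -/
theorem det_rec {s : ℕ → K} {m n : ℕ} (hm : (hank s m).det ≠ 0) (_hmn : m ≤ n)
    (h0 : ∀ j, m < j → j ≤ n → (hank s j).det = 0) :
    ∃ c : Fin m → K, ∀ j < n, s (j + m) = ∑ l : Fin m, c l * s (j + l) := by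
  obtain ⟨c, hc⟩ := exists_rec hm
  refine ⟨c, ?_⟩
  -- the monic polynomial of the recurrence
  set P : K[X] := X ^ m - pol c with hP
  have hfP : ∀ j, fn s (X ^ j * P) = s (j + m) - ∑ l : Fin m, c l * s (j + l) := by
    intro j
    rw [hP, mul_sub, map_sub, fn_pol, ← pow_add, fn_X]
  have hmonic : P.Monic := by
    rw [hP, sub_eq_add_neg]
    refine monic_X_pow_add ?_
    rw [degree_neg]
    exact pol_degree c
  have hdeg : P.natDegree = m := by
    have h1 : P.degree = m := by
      rw [hP]
      rw [degree_sub_eq_left_of_degree_lt]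
      · exact degree_X_pow m
      · rw [degree_X_pow]; exact pol_degree c
    exact natDegree_eq_of_degree_eq_some h1
  have key : ∀ k, k ≤ n → ∀ j < k, fn s (X ^ j * P) = 0 := by
    intro k
    induction k with
    | zero => intro _ j hj; omega
    | succ k ih =>
      intro hk j hj
      have ihk := ih (by omega)
      rcases Nat.lt_succ_iff_lt_or_eq.1 hj with hj | hj
      · exact ihk j hj
      subst hj
      by_cases hjm : j < m
      · rw [hfP, hc j hjm, sub_self]
      -- now `m ≤ j`, `D_(j+1) = 0`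
      have hjm' : m ≤ j := not_lt.1 hjm
      obtain ⟨v, hv0, hvd, hv⟩ := exists_of_det (h0 (j + 1) (by omega) (by omega))
      have hdiv := modByMonic_add_div v P
      have hwd : (v %ₘ P).degree < m := by
        have := degree_modByMonic_lt v hmonic
        rwa [degree_eq_natDegree hmonic.ne_zero, hdeg] at this
      have hvn : v.natDegree ≤ j := by
        have : v.natDegree < j + 1 := (natDegree_lt_iff_degree_lt hv0).2 hvd
        omega
      have hun : (v /ₘ P).natDegree ≤ j - m := by
        rw [natDegree_divByMonic v hmonic, hdeg]; omega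
      have hexp : ∀ a : ℕ, fn s (X ^ a * (P * (v /ₘ P)))
          = ∑ i ∈ range ((v /ₘ P).natDegree + 1),
              (v /ₘ P).coeff i * fn s (X ^ (i + a) * P) := by
        intro a
        rw [← mul_assoc, fn_mul s _ _ (Nat.lt_succ_self _)]
        refine sum_congr rfl fun i _ => ?_
        rw [← mul_assoc, ← pow_add]
      have hw : v %ₘ P = 0 := by
        refine eq_zero_of_fn hm hwd fun a ha => ?_
        have e1 : v %ₘ P = v - P * (v /ₘ P) := by rw [eq_sub_iff_add_eq]; exact hdiv
        rw [e1, mul_sub, map_sub, hv a (by omega), hexp, zero_sub, neg_eq_zero]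
        refine sum_eq_zero fun i hi => ?_
        rw [mem_range] at hi
        rw [ihk (i + a) (by omega), mul_zero]
      rw [hw, zero_add] at hdiv
      have hu0 : v /ₘ P ≠ 0 := by
        intro h
        rw [h, mul_zero] at hdiv
        exact hv0 hdiv.symm
      set d := (v /ₘ P).natDegree with hd
      have h5 := hv (j - d) (by omega)
      rw [← hdiv, hexp, sum_range_succ, sum_eq_zero, zero_add] at h5
      · rw [show d + (j - d) = j by omega] at h5
        rcases mul_eq_zero.1 h5 with h6 | h6
        · exact absurd h6 (by rw [hd]; exact leadingCoeff_ne_zero.2 hu0)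
        · exact h6
      · intro i hi
        rw [mem_range] at hi
        rw [ihk (i + (j - d)) (by omega), mul_zero]
  intro j hj
  have := key n le_rfl j hj
  rw [hfP, sub_eq_zero] at this
  exact this

end Pool.Agent.HK41
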