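import Pool.Agent.HK41.Comb

/-! The number of predicted elements of a random set of integers. -/

set_option autoImplicit false

namespace Pool.Agent.HK41

open MeasureTheory ProbabilityTheory Filter Topology Finset

variable {Ω : Type*} [mΩ : MeasurableSpace Ω] {μ : Measure Ω} {E : ℕ → Set Ω}

/-- the random set -/
def rs (E : ℕ → Set Ω) (ω : Ω) : Set ℕ := {m | ω ∈ E m}

/-- the event that the random set below `M` is `B` -/
def At (E : ℕ → Set Ω) (M : ℕ) (B : Finset ℕ) : Set Ω :=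
  ⋂ m ∈ range M, if m ∈ B then E m else (E m)ᶜ

lemma At_real [IsProbabilityMeasure μ] (hE : ∀ m, MeasurableSet (E m)) (hi : iIndepSet E μ)
    (M : ℕ) (B : Finset ℕ) : μ.real (At E M B) = wt (fun m => μ.real (E m)) M B := by
  have h1 := (iIndep_iff _ μ).1 ((iIndepSet_iff_iIndep E μ).1 hi) (range M)
    (f := fun m => if m ∈ B then E m else (E m)ᶜ) (fun m _ => by
      have h0 : MeasurableSet[MeasurableSpace.generateFrom {E m}] (E m) :=
        MeasurableSpace.measurableSet_generateFrom (Set.mem_singleton _)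
      split_ifs
      · exact h0
      · exact MeasurableSet.compl h0)
  unfold At wt
  rw [Measure.real, h1, ENNReal.toReal_prod]
  refine prod_congr rfl fun m _ => ?_
  split_ifs
  · rfl
  · exact probReal_compl_eq_one_sub (hE m)

variable {P : ℕ → (ℕ → ℕ) → Prop}

/-- many predicted elements below `M` -/
def Vm (P : ℕ → (ℕ → ℕ) → Prop) (E : ℕ → Set Ω) (J : Finset ℕ) (R M : ℕ) : Set Ω :=
  {ω | R ≤ hit P J M (rs E ω)}

lemma Vm_le [IsProbabilityMeasure μ] (hE : ∀ m, MeasurableSet (E m)) (hi : iIndepSet E μ)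
    (hP : Predictor P) (J : Finset ℕ) {lam : ℝ} (hlam : 1 ≤ lam) {ε : ℕ → ℝ} (hε : Antitone ε)
    (hpe : ∀ m, μ.real (E m) ≤ ε m) (R M : ℕ) :
    μ (Vm P E J R M) ≤
      ENNReal.ofReal ((lam ^ R)⁻¹ * ∏ t ∈ J, (1 + (lam - 1) * ε t)) := by
  classical
  have hsub : Vm P E J R M ⊆ ⋃ B ∈ (range M).powerset.filter
      (fun B : Finset ℕ => R ≤ hit P J M (B : Set ℕ)), At E M B := by
    intro ω hω
    have hω' : R ≤ hit P J M (rs E ω) := hω
    have hag : ∀ k < M, (k ∈ rs E ω ↔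
        k ∈ (((range M).filter (fun m => ω ∈ E m) : Finset ℕ) : Set ℕ)) := by
      intro k hk
      rw [mem_coe, mem_filter, mem_range]
      exact ⟨fun h => ⟨hk, h⟩, fun h => h.2⟩
    rw [Set.mem_iUnion₂]
    refine ⟨(range M).filter (fun m => ω ∈ E m), ?_, ?_⟩
    · rw [mem_filter]
      refine ⟨mem_powerset.2 (filter_subset _ _), ?_⟩
      rw [← hit_congr hag]
      exact hω'
    · unfold At
      rw [Set.mem_iInter₂]
      intro m hm
      by_cases h : ω ∈ E m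
      · have hn : m ∈ (range M).filter (fun m => ω ∈ E m) := mem_filter.2 ⟨hm, h⟩
        rw [if_pos hn]; exact h
      · have hn : m ∉ (range M).filter (fun m => ω ∈ E m) := fun hh => h (mem_filter.1 hh).2
        rw [if_neg hn]; exact h
  have h1 : μ.real (Vm P E J R M) ≤ (lam ^ R)⁻¹ * ∏ t ∈ J, (1 + (lam - 1) * ε t) := by
    refine (measureReal_mono hsub (measure_ne_top _ _)).trans ?_
    refine (measureReal_biUnion_finset_le _ _).trans ?_
    refine le_trans (le_of_eq (sum_congr rfl fun B _ => At_real hE hi M B)) ?_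
    exact sum_wt_hit hP J hlam (fun m => measureReal_nonneg) (fun m => measureReal_le_one) hε hpe M R
  rw [← ENNReal.ofReal_toReal (measure_ne_top μ (Vm P E J R M))]
  exact ENNReal.ofReal_le_ofReal h1

/-- at least `R` predicted terms with index in `J` -/
def Wn (P : ℕ → (ℕ → ℕ) → Prop) (E : ℕ → Set Ω) (J : Finset ℕ) (R : ℕ) : Set Ω :=
  {ω | (rs E ω).Infinite ∧ R ≤ {t : ℕ | t ∈ J ∧ P t (el (rs E ω))}.ncard}

lemma Wn_le [IsProbabilityMeasure μ] (hE : ∀ m, MeasurableSet (E m)) (hi : iIndepSet E μ)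
    (hP : Predictor P) (J : Finset ℕ) {lam : ℝ} (hlam : 1 ≤ lam) {ε : ℕ → ℝ} (hε : Antitone ε)
    (hpe : ∀ m, μ.real (E m) ≤ ε m) (R : ℕ) :
    μ (Wn P E J R) ≤
      ENNReal.ofReal ((lam ^ R)⁻¹ * ∏ t ∈ J, (1 + (lam - 1) * ε t)) := by
  have hsub : Wn P E J R ⊆ ⋃ M, Vm P E J R M := by
    rintro ω ⟨h1, h2⟩
    obtain ⟨M, hM⟩ := ncard_le_hit hP h1 J
    rw [Set.mem_iUnion]
    exact ⟨M, h2.trans hM⟩
  have hmono : Monotone (Vm P E J R) := by
    intro M M' h ω hω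
    have hω' : R ≤ hit P J M (rs E ω) := hω
    exact hω'.trans (hit_mono J (rs E ω) h)
  refine (measure_mono hsub).trans ?_
  rw [hmono.measure_iUnion]
  exact iSup_le fun M => Vm_le hE hi hP J hlam hε hpe R M

/-- Almost surely, for all large `N`, the number of predicted terms among the first `2 N` elements
is at most `2 ∑_{t < 2N} ε t + 3 log N`. -/
theorem predicted_le [IsProbabilityMeasure μ] (hE : ∀ m, MeasurableSet (E m))
    (hi : iIndepSet E μ) (hP : Predictor P) {ε : ℕ → ℝ} (hε : Antitone ε)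
    (hpe : ∀ m, μ.real (E m) ≤ ε m) :
    ∀ᵐ ω ∂μ, (rs E ω).Infinite → ∀ᶠ N : ℕ in atTop,
      ({t : ℕ | t < 2 * N ∧ P t (el (rs E ω))}.ncard : ℝ)
        ≤ 2 * ∑ t ∈ range (2 * N), ε t + 3 * Real.log N := by
  have hε0 : ∀ m, 0 ≤ ε m := fun m => measureReal_nonneg.trans (hpe m)
  let S : ℕ → ℝ := fun N => ∑ t ∈ range (2 * N), ε t
  let R : ℕ → ℝ := fun N => 2 * S N + 3 * Real.log N
  have hb : ∀ N : ℕ, μ (Wn P E (range (2 * (N + 1))) ⌈R (N + 1)⌉₊) ≤
      ENNReal.ofReal (1 / ((N + 1 : ℕ) : ℝ) ^ 2) := by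
    intro N
    refine (Wn_le hE hi hP (range (2 * (N + 1))) (by norm_num : (1 : ℝ) ≤ 2) hε hpe _).trans
      (ENNReal.ofReal_le_ofReal ?_)
    have hS0 : 0 ≤ S (N + 1) := sum_nonneg fun t _ => hε0 t
    have hprod : ∏ t ∈ range (2 * (N + 1)), (1 + ((2 : ℝ) - 1) * ε t) ≤ Real.exp (S (N + 1)) := by
      show _ ≤ Real.exp (∑ t ∈ range (2 * (N + 1)), ε t)
      rw [Real.exp_sum]
      refine prod_le_prod (fun t _ => by have := hε0 t; linarith) fun t _ => ?_
      have := Real.add_one_le_exp (ε t)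
      linarith
    have hN : (0 : ℝ) < ((N + 1 : ℕ) : ℝ) := by exact_mod_cast Nat.succ_pos N
    have hlog : 0 ≤ Real.log ((N + 1 : ℕ) : ℝ) := Real.log_natCast_nonneg _
    have hl2 := Real.log_two_gt_d9
    have hpow : ((2 : ℝ) ^ ⌈R (N + 1)⌉₊)⁻¹ ≤ Real.exp (-(Real.log 2 * R (N + 1))) := by
      have e : (2 : ℝ) ^ ⌈R (N + 1)⌉₊ = Real.exp (Real.log 2 * (⌈R (N + 1)⌉₊ : ℝ)) := by
        rw [mul_comm, Real.exp_nat_mul, Real.exp_log (by norm_num)]
      rw [e, ← Real.exp_neg]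
      refine Real.exp_le_exp.2 (neg_le_neg ?_)
      exact mul_le_mul_of_nonneg_left (Nat.le_ceil _) (by linarith)
    calc ((2 : ℝ) ^ ⌈R (N + 1)⌉₊)⁻¹ * ∏ t ∈ range (2 * (N + 1)), (1 + ((2 : ℝ) - 1) * ε t)
        ≤ Real.exp (-(Real.log 2 * R (N + 1))) * Real.exp (S (N + 1)) :=
          mul_le_mul hpow hprod (prod_nonneg fun t _ => by have := hε0 t; linarith)
            (Real.exp_pos _).le
      _ = Real.exp (-(Real.log 2 * R (N + 1)) + S (N + 1)) := (Real.exp_add _ _).symm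
      _ ≤ Real.exp (-(2 * Real.log ((N + 1 : ℕ) : ℝ))) := by
          refine Real.exp_le_exp.2 ?_
          show -(Real.log 2 * (2 * S (N + 1) + 3 * Real.log ((N + 1 : ℕ) : ℝ))) + S (N + 1)
            ≤ -(2 * Real.log ((N + 1 : ℕ) : ℝ))
          nlinarith [mul_nonneg hS0 (by linarith : (0:ℝ) ≤ 2 * Real.log 2 - 1),
            mul_nonneg hlog (by linarith : (0:ℝ) ≤ 3 * Real.log 2 - 2)]
      _ = 1 / ((N + 1 : ℕ) : ℝ) ^ 2 := by
          rw [Real.exp_neg, one_div]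
          congr 1
          rw [mul_comm, Real.exp_mul, Real.exp_log hN]
          norm_num
  have hsum : (∑' N : ℕ, μ (Wn P E (range (2 * (N + 1))) ⌈R (N + 1)⌉₊)) ≠ ⊤ := by
    have h1 : Summable (fun N : ℕ => 1 / ((N + 1 : ℕ) : ℝ) ^ 2) :=
      (summable_nat_add_iff 1).2 (Real.summable_one_div_nat_pow.2 (by norm_num : 1 < 2))
    exact ne_top_of_le_ne_top h1.tsum_ofReal_ne_top (ENNReal.tsum_le_tsum hb)
  filter_upwards [ae_eventually_notMem hsum] with ω hω hinf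
  obtain ⟨N0, hN0⟩ := eventually_atTop.1 hω
  filter_upwards [eventually_ge_atTop (N0 + 1)] with N hN
  by_contra hcon
  rw [not_le] at hcon
  obtain ⟨k, rfl⟩ : ∃ k, N = k + 1 := ⟨N - 1, by omega⟩
  refine hN0 k (by omega) ⟨hinf, ?_⟩
  rw [Nat.ceil_le]
  have e : {t : ℕ | t ∈ range (2 * (k + 1)) ∧ P t (el (rs E ω))}
      = {t : ℕ | t < 2 * (k + 1) ∧ P t (el (rs E ω))} := by
    ext t
    simp
  rw [e]
  exact hcon.le

/-- The probability that all the terms with index in `J` are predicted. -/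
theorem all_predicted_le [IsProbabilityMeasure μ] (hE : ∀ m, MeasurableSet (E m))
    (hi : iIndepSet E μ) (hP : Predictor P) {ε : ℕ → ℝ} (hε : Antitone ε)
    (hpe : ∀ m, μ.real (E m) ≤ ε m) (J : Finset ℕ) :
    μ {ω | (rs E ω).Infinite ∧ ∀ t ∈ J, P t (el (rs E ω))} ≤ ENNReal.ofReal (∏ t ∈ J, ε t) := by
  have hsub : {ω | (rs E ω).Infinite ∧ ∀ t ∈ J, P t (el (rs E ω))} ⊆ Wn P E J J.card := by
    rintro ω ⟨h1, h2⟩
    refine ⟨h1, ?_⟩
    have e : {t : ℕ | t ∈ J ∧ P t (el (rs E ω))} = (J : Set ℕ) := by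
      ext t
      exact ⟨fun h => h.1, fun h => ⟨h, h2 t h⟩⟩
    rw [e, Set.ncard_coe_finset]
  have hlim : Tendsto (fun lam : ℝ => (lam ^ J.card)⁻¹ * ∏ t ∈ J, (1 + (lam - 1) * ε t)) atTop
      (𝓝 (∏ t ∈ J, ε t)) := by
    have h1 : Tendsto (fun lam : ℝ => ∏ t ∈ J, (lam⁻¹ * (1 + (lam - 1) * ε t))) atTop
        (𝓝 (∏ t ∈ J, ε t)) := by
      refine tendsto_finset_prod _ fun t _ => ?_
      have h2 : Tendsto (fun lam : ℝ => ε t + lam⁻¹ * (1 - ε t)) atTop (𝓝 (ε t + 0 * (1 - ε t))) :=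
        (tendsto_inv_atTop_zero.mul_const _).const_add _
      rw [zero_mul, add_zero] at h2
      refine h2.congr' ?_
      filter_upwards [eventually_gt_atTop 0] with lam hl
      field_simp
      ring
    refine h1.congr fun lam => ?_
    rw [prod_mul_distrib, prod_const, inv_pow]
  have hle : ∀ᶠ lam : ℝ in atTop, μ {ω | (rs E ω).Infinite ∧ ∀ t ∈ J, P t (el (rs E ω))} ≤
      ENNReal.ofReal ((lam ^ J.card)⁻¹ * ∏ t ∈ J, (1 + (lam - 1) * ε t)) := by
    filter_upwards [eventually_ge_atTop 1] with lam hl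
    exact (measure_mono hsub).trans (Wn_le hE hi hP J hl hε hpe _)
  exact ge_of_tendsto (ENNReal.tendsto_ofReal hlim) hle

end Pool.Agent.HK41
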