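import Pool.Agent.HK41.Pred
import Pool.Agent.HK41.Mart

/-! Zeros of the Hankel determinants of a random set of integers: general statements. -/

set_option autoImplicit false

namespace Pool.Agent.HK41

open MeasureTheory ProbabilityTheory Filter Topology Finset

/-- The Hankel determinant `det (q (i + j))`, `0 ≤ i, j < n`, where `q 0 < q 1 < ...` are the
elements of `A`. -/
noncomputable def hd (A : Set ℕ) (n : ℕ) : ℤ :=
  (Matrix.of fun i j : Fin n => ((Nat.nth (fun x => x ∈ A) (i + j) : ℕ) : ℤ)).det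

/-- the elements of `A` as rational numbers -/
noncomputable def qs (A : Set ℕ) (k : ℕ) : ℚ := (el A k : ℚ)

lemma hd_zero_iff (A : Set ℕ) (n : ℕ) : hd A n = 0 ↔ (hank (qs A) n).det = 0 := by
  have h : (hank (qs A) n).det = ((hd A n : ℤ) : ℚ) := by
    unfold hd
    have h1 := (Int.castRingHom ℚ).map_det
      (Matrix.of fun i j : Fin n => ((Nat.nth (fun x => x ∈ A) (i + j) : ℕ) : ℤ))
    rw [eq_intCast] at h1
    rw [h1]
    congr 1
  rw [h]
  exact Int.cast_eq_zero.symm

/-- `s t` is predicted by the earlier terms -/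
def PP (t : ℕ) (s : ℕ → ℕ) : Prop := Pd t (fun k => (s k : ℚ))

lemma predictor_PP : Predictor PP where
  congr := by
    intro t s s' h hp
    refine Pd_congr (fun k hk => ?_) hp
    show (s k : ℚ) = s' k
    rw [h k hk]
  unique := by
    intro t s s' h hp hp'
    have h1 : ((s t : ℕ) : ℚ) = ((s' t : ℕ) : ℚ) :=
      Pd_unique (s := fun k => (s k : ℚ)) (s' := fun k => (s' k : ℚ)) (fun k hk => by
        show (s k : ℚ) = s' k
        rw [h k hk]) hp hp'
    exact_mod_cast h1

/-- after a nonzero determinant of order `m`, a run of zeros up to `n` forces predictions -/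
lemma run_pd {K : Type*} [Field K] {s : ℕ → K} {m n : ℕ} (hm : (hank s m).det ≠ 0)
    (h0 : ∀ j, m < j → j ≤ n → (hank s j).det = 0) (hmn : m ≤ n) {t : ℕ} (h1 : 2 * m ≤ t)
    (h2 : t < m + n) : Pd t s := by
  obtain ⟨c, hc⟩ := det_rec hm hmn h0
  exact ⟨m, h1, hm, fun j hj hj2 => h0 j hj (by omega), c, fun i hi => hc i (by omega)⟩

variable {Ω : Type*} [mΩ : MeasurableSpace Ω] {μ : Measure Ω} {E : ℕ → Set Ω}

/-- the zeros up to `N`, almost surely, for all large `N` -/
theorem zeros_general [IsProbabilityMeasure μ] (hE : ∀ m, MeasurableSet (E m))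
    (hi : iIndepSet E μ) {ε : ℕ → ℝ} (hε : Antitone ε) (hpe : ∀ m, μ.real (E m) ≤ ε m) :
    ∀ᵐ ω ∂μ, (rs E ω).Infinite → ∀ᶠ N : ℕ in atTop,
      ({n : ℕ | n ≤ N ∧ hd (rs E ω) n = 0}.ncard : ℝ)
        ≤ 2 * ∑ t ∈ range (2 * N), ε t + 3 * Real.log N := by
  filter_upwards [predicted_le hE hi predictor_PP hε hpe] with ω hω hinf
  filter_upwards [hω hinf] with N hN
  refine le_trans ?_ hN
  have h1 := zeros_le (qs (rs E ω)) N
  have e : {n : ℕ | n ≤ N ∧ hd (rs E ω) n = 0}
      = {n : ℕ | n ≤ N ∧ (hank (qs (rs E ω)) n).det = 0} := by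
    ext n
    exact and_congr_right fun _ => hd_zero_iff _ _
  rw [e]
  exact_mod_cast h1

/-- the random set is almost surely infinite -/
theorem infinite_general [IsProbabilityMeasure μ] (hE : ∀ m, MeasurableSet (E m))
    (hi : iIndepSet E μ) (hs : ¬ Summable (fun m => μ.real (E m))) :
    ∀ᵐ ω ∂μ, (rs E ω).Infinite := by
  have htop : (∑' m, μ (E m)) = ⊤ := by
    by_contra h
    apply hs
    have := ENNReal.summable_toReal h
    exact this
  have h1 := measure_limsup_eq_one hE hi htop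
  have h2 : ∀ᵐ ω ∂μ, ω ∈ limsup E atTop := by
    rw [ae_iff]
    have hm : MeasurableSet (limsup E atTop) := MeasurableSet.measurableSet_limsup hE
    have h3 := prob_compl_eq_zero_iff (μ := μ) hm
    exact h3.2 h1
  filter_upwards [h2] with ω hω
  rw [mem_limsup_iff_frequently_mem] at hω
  exact Nat.frequently_atTop_iff_infinite.1 hω

lemma geo_sum {e : ℝ} (h0 : 0 ≤ e) (h1 : e < 1) (n : ℕ) :
    ∑ k ∈ range (2 * n), e ^ (k / 2) ≤ 2 / (1 - e) := by
  have h2 : ∑ k ∈ range (2 * n), e ^ (k / 2) = 2 * ∑ k ∈ range n, e ^ k := by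
    induction n with
    | zero => simp
    | succ n ih =>
      rw [show 2 * (n + 1) = 2 * n + 1 + 1 by ring, sum_range_succ, sum_range_succ, ih,
        sum_range_succ, show 2 * n / 2 = n by omega, show (2 * n + 1) / 2 = n by omega]
      ring
  rw [h2, geom_sum_eq h1.ne]
  have h3 : 0 ≤ e ^ n := pow_nonneg h0 n
  have h4 : (e ^ n - 1) / (e - 1) = (1 - e ^ n) / (1 - e) := by
    rw [← neg_sub 1 (e ^ n), ← neg_sub 1 e, neg_div_neg_eq]
  rw [h4, ← mul_div_assoc]
  refine div_le_div_of_nonneg_right (by linarith) (by linarith)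

/-- the probability of a zero -/
theorem prob_zero_general [IsProbabilityMeasure μ] (hE : ∀ m, MeasurableSet (E m))
    (hi : iIndepSet E μ) {ε : ℕ → ℝ} (hε : Antitone ε) (hpe : ∀ m, μ.real (E m) ≤ ε m)
    (hinf : ∀ᵐ ω ∂μ, (rs E ω).Infinite) (n : ℕ) (h1 : ε (n / 2) < 1) :
    μ.real {ω | hd (rs E ω) n = 0} ≤ 2 * ε (n / 2) / (1 - ε (n / 2)) := by
  have hε0 : ∀ m, 0 ≤ ε m := fun m => measureReal_nonneg.trans (hpe m)
  set e := ε (n / 2) with he
  have he0 : 0 ≤ e := hε0 _
  -- the events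
  let J : ℕ → Finset ℕ := fun k => Ico (2 * n - (k + 1) - (k + 2) / 2) (2 * n - (k + 1))
  let F : ℕ → Set Ω := fun k => {ω | (rs E ω).Infinite ∧ ∀ t ∈ J k, PP t (el (rs E ω))}
  have hF : ∀ k ∈ range n, μ (F k) ≤ ENNReal.ofReal (e * e ^ (k / 2)) := by
    intro k hk
    have hk' := mem_range.1 hk
    refine (all_predicted_le hE hi predictor_PP hε hpe (J k)).trans (ENNReal.ofReal_le_ofReal ?_)
    have hcard : (J k).card = k / 2 + 1 := by
      show (Ico _ _).card = _
      rw [Nat.card_Ico]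
      omega
    rw [← pow_succ', ← hcard, ← prod_const]
    refine prod_le_prod (fun t _ => hε0 t) fun t ht => ?_
    refine hε ?_
    have := (mem_Ico.1 ht).1
    omega
  have hsub : {ω | hd (rs E ω) n = 0} ≤ᵐ[μ] ⋃ k ∈ range n, F k := by
    filter_upwards [hinf] with ω hω h0
    have h0' : (hank (qs (rs E ω)) n).det = 0 := (hd_zero_iff _ _).1 h0
    classical
    have hz : (hank (qs (rs E ω)) 0).det ≠ 0 := by
      rw [Matrix.det_fin_zero]; exact one_ne_zero
    have hn : n ≠ 0 := by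
      rintro rfl
      exact hz h0'
    let m := Nat.findGreatest (fun j => (hank (qs (rs E ω)) j).det ≠ 0) (n - 1)
    have hmle : m ≤ n - 1 := Nat.findGreatest_le _
    have hms : (hank (qs (rs E ω)) m).det ≠ 0 :=
      Nat.findGreatest_spec (P := fun j => (hank (qs (rs E ω)) j).det ≠ 0) (Nat.zero_le (n - 1)) hz
    have hmg : ∀ j, m < j → j ≤ n → (hank (qs (rs E ω)) j).det = 0 := by
      intro j h2 h3
      rcases Nat.lt_or_ge (n - 1) j with h4 | h4
      · rw [show j = n by omega]; exact h0'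
      · by_contra h5
        exact Nat.findGreatest_is_greatest h2 h4 h5
    show ω ∈ ⋃ k ∈ range n, F k
    rw [Set.mem_iUnion₂]
    refine ⟨n - 1 - m, mem_range.2 (by omega), hω, fun t ht => ?_⟩
    have ht' : 2 * n - (n - 1 - m + 1) - (n - 1 - m + 2) / 2 ≤ t ∧ t < 2 * n - (n - 1 - m + 1) :=
      mem_Ico.1 ht
    exact run_pd hms hmg (by omega) (by omega) (by omega)
  have hle : μ {ω | hd (rs E ω) n = 0} ≤ ENNReal.ofReal (2 * e / (1 - e)) := by
    refine (measure_mono_ae hsub).trans ((measure_biUnion_finset_le _ _).trans ?_)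
    refine (sum_le_sum hF).trans ?_
    rw [← ENNReal.ofReal_sum_of_nonneg (fun k _ => mul_nonneg he0 (pow_nonneg he0 _))]
    refine ENNReal.ofReal_le_ofReal ?_
    rw [← mul_sum]
    have h2 : ∑ k ∈ range n, e ^ (k / 2) ≤ ∑ k ∈ range (2 * n), e ^ (k / 2) :=
      sum_le_sum_of_subset_of_nonneg (range_subset_range.2 (by omega))
        (fun k _ _ => pow_nonneg he0 _)
    have h3 := mul_le_mul_of_nonneg_left (h2.trans (geo_sum he0 h1 n)) he0
    refine h3.trans (le_of_eq ?_)
    ring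
  have h5 : 0 ≤ 2 * e / (1 - e) := div_nonneg (by linarith) (by linarith)
  rw [Measure.real]
  exact ENNReal.toReal_le_of_le_ofReal h5 hle

end Pool.Agent.HK41
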