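import Pool.Agent.HK41.Det

/-! Zeros of Hankel determinants and predicted terms. -/

set_option autoImplicit false

namespace Pool.Agent.HK41

open Finset

variable {K : Type*} [Field K]

/-- `s t` is predicted by the earlier terms: it continues the recurrence of order `m`, where `m` is
the largest order with a nonzero determinant known at time `t`. -/
def Pd (t : ℕ) (s : ℕ → K) : Prop :=
  ∃ m, 2 * m ≤ t ∧ (hank s m).det ≠ 0 ∧ (∀ j, m < j → 2 * j ≤ t + 1 → (hank s j).det = 0) ∧
    ∃ c : Fin m → K, ∀ i, i + m ≤ t → s (i + m) = ∑ l : Fin m, c l * s (i + l)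

lemma hank_congr {s s' : ℕ → K} {t j : ℕ} (h : ∀ k < t, s k = s' k) (hj : 2 * j ≤ t + 1) :
    hank s j = hank s' j := by
  ext a b
  have ha := a.2
  have hb := b.2
  show s (a + b) = s' (a + b)
  exact h _ (by omega)

lemma Pd_congr {s s' : ℕ → K} {t : ℕ} (h : ∀ k ≤ t, s k = s' k) (hp : Pd t s) : Pd t s' := by
  obtain ⟨m, h1, h2, h3, c, hc⟩ := hp
  have hlt : ∀ k < t, s k = s' k := fun k hk => h k hk.le
  refine ⟨m, h1, ?_, fun j hj hj2 => ?_, c, fun i hi => ?_⟩
  · rw [← hank_congr hlt (by omega)]; exact h2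
  · rw [← hank_congr hlt hj2]; exact h3 j hj hj2
  · rw [← h _ hi, hc i hi]
    refine sum_congr rfl fun l _ => ?_
    have := l.2
    rw [h (i + l) (by omega)]

lemma Pd_unique {s s' : ℕ → K} {t : ℕ} (h : ∀ k < t, s k = s' k) (hp : Pd t s)
    (hp' : Pd t s') : s t = s' t := by
  obtain ⟨m, h1, h2, h3, c, hc⟩ := hp
  obtain ⟨m', h1', h2', h3', c', hc'⟩ := hp'
  have e : m = m' := by
    rcases lt_trichotomy m m' with hlt | heq | hgt
    · exfalso
      apply h2'
      rw [← hank_congr h (by omega)]
      exact h3 m' hlt (by omega)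
    · exact heq
    · exfalso
      apply h2
      rw [hank_congr h (by omega)]
      exact h3' m hgt (by omega)
  subst e
  have ec : c = c' := by
    refine rec_unique h2 fun j hj => ?_
    rw [← hc j (by omega)]
    have e1 : ∑ l : Fin m, c' l * s (j + l) = ∑ l : Fin m, c' l * s' (j + l) := by
      refine sum_congr rfl fun l _ => ?_
      have := l.2
      rw [h (j + l) (by omega)]
    rw [e1, ← hc' j (by omega)]
    exact h _ (by omega)
  subst ec
  have e2 := hc (t - m) (by omega)
  have e3 := hc' (t - m) (by omega)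
  rw [show t - m + m = t by omega] at e2 e3
  rw [e2, e3]
  refine sum_congr rfl fun l _ => ?_
  have := l.2
  rw [h (t - m + l) (by omega)]

/-- The zeros up to `N` are at most as many as the predicted terms before `2 N`. -/
theorem zeros_le (s : ℕ → K) (N : ℕ) :
    {n : ℕ | n ≤ N ∧ (hank s n).det = 0}.ncard ≤ {t : ℕ | t < 2 * N ∧ Pd t s}.ncard := by
  classical
  have hzero : (hank s 0).det ≠ 0 := by
    rw [Matrix.det_fin_zero]; exact one_ne_zero
  let f : ℕ → ℕ := fun n => Nat.findGreatest (fun j => (hank s j).det ≠ 0) (n - 1)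
  have hfle : ∀ n, f n ≤ n - 1 := fun n => Nat.findGreatest_le _
  have hfs : ∀ n, (hank s (f n)).det ≠ 0 := fun n =>
    Nat.findGreatest_spec (P := fun j => (hank s j).det ≠ 0) (Nat.zero_le (n - 1)) hzero
  have hfg : ∀ n k, f n < k → k ≤ n - 1 → (hank s k).det = 0 := by
    intro n k h1 h2
    by_contra h3
    exact Nat.findGreatest_is_greatest h1 h2 h3
  have hpos : ∀ n, (hank s n).det = 0 → 1 ≤ n := by
    intro n hn
    rcases Nat.eq_zero_or_pos n with h | h
    · subst h; exact absurd hn hzero
    · exact h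
  refine Set.ncard_le_ncard_of_injOn (fun n => f n + n - 1) ?_ ?_ ?_
  · rintro n ⟨hnN, hn⟩
    have h1 := hpos n hn
    have h2 := hfle n
    refine ⟨?_, f n, ?_, hfs n, ?_, ?_⟩
    · show f n + n - 1 < 2 * N
      omega
    · show 2 * f n ≤ f n + n - 1
      omega
    · intro j hj hj2
      have hj3 : 2 * j ≤ f n + n - 1 + 1 := hj2
      exact hfg n j hj (by omega)
    · obtain ⟨c, hc⟩ := det_rec (hfs n) (n := n) (by omega) (fun j hj hjn => by
        rcases Nat.lt_or_ge (n - 1) j with h3 | h3
        · rw [show j = n by omega]; exact hn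
        · exact hfg n j hj h3)
      refine ⟨c, fun i hi => hc i ?_⟩
      have hi2 : i + f n ≤ f n + n - 1 := hi
      omega
  · rintro a ⟨_, ha⟩ b ⟨_, hb⟩ hab
    have hab' : f a + a - 1 = f b + b - 1 := hab
    have ha1 := hpos a ha
    have hb1 := hpos b hb
    rcases lt_trichotomy a b with h | h | h
    · exfalso
      have : f a ≤ f b := Nat.le_findGreatest (by have := hfle a; omega) (hfs a)
      omega
    · exact h
    · exfalso
      have : f b ≤ f a := Nat.le_findGreatest (by have := hfle b; omega) (hfs b)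
      omega
  · exact (Set.finite_lt_nat (2 * N)).subset fun t ht => ht.1

end Pool.Agent.HK41
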