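import Pool.Agent.HK41.Cram

/-!
# HK41/Runs: short runs of zeros in Cramer's model, with the constant one
-/

set_option autoImplicit false

namespace Pool.Agent.HK41

open MeasureTheory Filter Finset

/-- telescoping bound for `1 / (n log² n)` -/
theorem summ_sq : Summable fun n : ℕ => 1 / ((n : ℝ) * Real.log n ^ 2) := by
  rw [← summable_nat_add_iff 3]
  have hpos : ∀ n : ℕ, 0 < Real.log ((n + 2 : ℕ) : ℝ) := by
    intro n
    apply Real.log_pos
    push_cast
    linarith [Nat.cast_nonneg (α := ℝ) n]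
  refine summable_of_sum_range_le (c := 1 / Real.log ((0 + 2 : ℕ) : ℝ)) (fun n => by positivity) ?_
  intro n
  have key : ∀ N : ℕ, ∑ i ∈ Finset.range N, 1 / (((i + 3 : ℕ) : ℝ) * Real.log ((i + 3 : ℕ) : ℝ) ^ 2) ≤
      1 / Real.log ((0 + 2 : ℕ) : ℝ) - 1 / Real.log ((N + 2 : ℕ) : ℝ) := by
    intro N
    induction N with
    | zero => simp
    | succ N ih =>
      rw [Finset.sum_range_succ]
      have h1 := hpos N
      have h2 := hpos (N + 1)
      have h3 : Real.log ((N + 2 : ℕ) : ℝ) ≤ Real.log ((N + 1 + 2 : ℕ) : ℝ) :=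
        Real.log_le_log (by positivity) (by push_cast; linarith)
      have h4 : 1 / ((N + 3 : ℕ) : ℝ) ≤ Real.log ((N + 1 + 2 : ℕ) : ℝ) - Real.log ((N + 2 : ℕ) : ℝ) := by
        rw [← Real.log_div (by positivity) (by positivity)]
        have h5 := Real.one_sub_inv_le_log_of_pos
          (show 0 < ((N + 1 + 2 : ℕ) : ℝ) / ((N + 2 : ℕ) : ℝ) by positivity)
        refine le_trans (le_of_eq ?_) h5
        push_cast
        field_simp
        ring
      have h6 : 1 / (((N + 3 : ℕ) : ℝ) * Real.log ((N + 3 : ℕ) : ℝ) ^ 2) ≤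
          1 / Real.log ((N + 2 : ℕ) : ℝ) - 1 / Real.log ((N + 1 + 2 : ℕ) : ℝ) := by
        have e3 : (N + 1 + 2 : ℕ) = N + 3 := by omega
        rw [e3] at h2 h3 h4 ⊢
        rw [div_sub_div _ _ h1.ne' h2.ne', div_le_div_iff₀ (by positivity) (by positivity)]
        have h7 : (0 : ℝ) < ((N + 3 : ℕ) : ℝ) := by positivity
        rw [div_le_iff₀ h7] at h4
        have h8 : Real.log ((N + 2 : ℕ) : ℝ) * Real.log ((N + 3 : ℕ) : ℝ) ≤
            Real.log ((N + 3 : ℕ) : ℝ) ^ 2 := by
          rw [pow_two]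
          exact mul_le_mul_of_nonneg_right h3 h2.le
        have h9 : 0 < Real.log ((N + 3 : ℕ) : ℝ) ^ 2 := by positivity
        nlinarith
      have e3 : (N + 1 + 2 : ℕ) = N + 3 := by omega
      linarith
  have h := key n
  have := hpos n
  have h2 : 0 < 1 / Real.log ((n + 2 : ℕ) : ℝ) := by positivity
  linarith

/-- length of the forbidden runs of predicted terms -/
noncomputable def kk1 (t : ℕ) : ℕ := ⌈Real.log t / Real.log (Real.log t)⌉₊ + 2

lemma runs_pred1 : ∀ᵐ ω ∂(Measure.infinitePi CR53.coin), ∀ᶠ t : ℕ in atTop,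
    ¬ ∀ j ∈ Ico t (t + kk1 t), PP j (el (rs cE ω)) := by
  let F : ℕ → Set (ℕ → Bool) := fun t =>
    {ω | (rs cE ω).Infinite ∧ ∀ j ∈ Ico (t + 3) (t + 3 + kk1 (t + 3)), PP j (el (rs cE ω))}
  have hb : ∀ t, (Measure.infinitePi CR53.coin) (F t)
      ≤ ENNReal.ofReal (1 / (((t + 3 : ℕ) : ℝ) * Real.log ((t + 3 : ℕ) : ℝ) ^ 2)) := by
    intro t
    refine (all_predicted_le CR53.model_facts.1 CR53.model_facts.2.1 predictor_PP ce_anti c_le
      _).trans (ENNReal.ofReal_le_ofReal ?_)
    have h3 : 3 ≤ t + 3 := by omega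
    have hl := one_lt_log h3
    set x : ℝ := ((t + 3 : ℕ) : ℝ) with hx
    have hx0 : 0 < x := by rw [hx]; positivity
    have hl0 : 0 < Real.log x := by linarith
    have hll : 0 < Real.log (Real.log x) := Real.log_pos hl
    have h1 : ∏ j ∈ Ico (t + 3) (t + 3 + kk1 (t + 3)), ce j ≤ (1 / Real.log x) ^ kk1 (t + 3) := by
      have hcard : (Ico (t + 3) (t + 3 + kk1 (t + 3))).card = kk1 (t + 3) := by
        rw [Nat.card_Ico]; omega
      conv_rhs => rw [← hcard, ← prod_const]
      refine prod_le_prod (fun j _ => ce_nonneg j) fun j hj => ?_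
      have := ce_anti (mem_Ico.1 hj).1
      rwa [ce_of h3] at this
    refine h1.trans ?_
    rw [one_div, inv_pow, ← one_div]
    refine one_div_le_one_div_of_le (by positivity) ?_
    unfold kk1
    rw [pow_add]
    refine mul_le_mul_of_nonneg_right ?_ (by positivity)
    have h2 : Real.log x ≤ (⌈Real.log x / Real.log (Real.log x)⌉₊ : ℝ) *
        Real.log (Real.log x) := by
      rw [← div_le_iff₀ hll]
      exact Nat.le_ceil _
    have e2 : (Real.log x) ^ ⌈Real.log x / Real.log (Real.log x)⌉₊ =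
        Real.exp ((⌈Real.log x / Real.log (Real.log x)⌉₊ : ℝ) * Real.log (Real.log x)) := by
      rw [Real.exp_nat_mul, Real.exp_log hl0]
    rw [e2]
    calc x = Real.exp (Real.log x) := (Real.exp_log hx0).symm
      _ ≤ _ := Real.exp_le_exp.2 h2
  have hsum : (∑' t : ℕ, (Measure.infinitePi CR53.coin) (F t)) ≠ ⊤ := by
    have h1 : Summable (fun t : ℕ => 1 / (((t + 3 : ℕ) : ℝ) * Real.log ((t + 3 : ℕ) : ℝ) ^ 2)) :=
      (summable_nat_add_iff 3).2 summ_sq
    exact ne_top_of_le_ne_top h1.tsum_ofReal_ne_top (ENNReal.tsum_le_tsum hb)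
  filter_upwards [ae_eventually_notMem hsum, c_inf] with ω hω hinf
  obtain ⟨N0, hN0⟩ := eventually_atTop.1 hω
  filter_upwards [eventually_ge_atTop (N0 + 3)] with t ht hall
  obtain ⟨k, rfl⟩ : ∃ k, t = k + 3 := ⟨t - 3, by omega⟩
  exact hN0 k (by omega) ⟨hinf, hall⟩

lemma num_d1 : ∀ᶠ N : ℕ in atTop, ∀ m : ℕ, m ≤ N →
    kk1 (m + N) ≤ ⌊Real.log N / Real.log (Real.log N) + 4⌋₊ := by
  have hL : ∀ᶠ n : ℕ in atTop, (13 : ℝ) ≤ Real.log n :=
    (Real.tendsto_log_atTop.comp (tendsto_natCast_atTop_atTop (R := ℝ))).eventually_ge_atTop 13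
  filter_upwards [hL, eventually_ge_atTop 1] with N hN h1 m hm
  have hN0 : (0 : ℝ) < N := by exact_mod_cast h1
  set L := Real.log N with hLd
  have hll : 0 < Real.log L := Real.log_pos (by linarith)
  have h2 : Real.log ((m + N : ℕ) : ℝ) ≤ L + Real.log 2 := by
    have h3 : ((m + N : ℕ) : ℝ) ≤ N * 2 := by
      have : m + N ≤ N * 2 := by omega
      exact_mod_cast this
    have h4 := Real.log_le_log (by exact_mod_cast (by omega : 0 < m + N)) h3
    rwa [Real.log_mul hN0.ne' (by norm_num)] at h4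
  have h5 : L ≤ Real.log ((m + N : ℕ) : ℝ) :=
    Real.log_le_log hN0 (by exact_mod_cast (by omega : N ≤ m + N))
  have h6 : Real.log L ≤ Real.log (Real.log ((m + N : ℕ) : ℝ)) := Real.log_le_log (by linarith) h5
  have h7 : Real.log ((m + N : ℕ) : ℝ) / Real.log (Real.log ((m + N : ℕ) : ℝ))
      ≤ (L + Real.log 2) / Real.log L := by
    refine div_le_div₀ ?_ h2 hll h6
    have := Real.log_two_gt_d9
    linarith
  have h8 : (L + Real.log 2) / Real.log L ≤ L / Real.log L + 1 := by
    rw [add_div]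
    have h9 : Real.log 2 ≤ Real.log L := Real.log_le_log (by norm_num) (by linarith)
    have h10 : Real.log 2 / Real.log L ≤ 1 := (div_le_one hll).2 h9
    linarith
  refine Nat.le_floor ?_
  unfold kk1
  have h14 := (Nat.ceil_lt_add_one (show 0 ≤ Real.log ((m + N : ℕ) : ℝ)
    / Real.log (Real.log ((m + N : ℕ) : ℝ)) from div_nonneg (by linarith) (by linarith))).le
  push_cast at h14 ⊢
  push_cast at h7
  linarith

/-- nonzero determinants in short intervals -/
theorem cram_runs1 : ∀ᵐ ω ∂(Measure.infinitePi CR53.coin), ∀ᶠ N : ℕ in atTop,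
    ∃ n : ℕ, N < n ∧ (n : ℝ) ≤ N + Real.log N / Real.log (Real.log N) + 4 ∧
      hd {m | ω m = true} n ≠ 0 := by
  filter_upwards [runs_pred1] with ω hω
  obtain ⟨N0, hN0⟩ := eventually_atTop.1 hω
  have hL : ∀ᶠ n : ℕ in atTop, (13 : ℝ) ≤ Real.log n :=
    (Real.tendsto_log_atTop.comp (tendsto_natCast_atTop_atTop (R := ℝ))).eventually_ge_atTop 13
  filter_upwards [num_d1, eventually_ge_atTop N0, hL] with N h1 h2 h3
  classical
  by_contra hcon
  push Not at hcon
  set K := ⌊Real.log N / Real.log (Real.log N) + 4⌋₊ with hK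
  have hK0 : 0 ≤ Real.log N / Real.log (Real.log N) + 4 :=
    add_nonneg (div_nonneg (by linarith) (Real.log_pos (by linarith)).le) (by norm_num)
  have hz : (hank (qs (rs cE ω)) 0).det ≠ 0 := by
    rw [Matrix.det_fin_zero]; exact one_ne_zero
  let m := Nat.findGreatest (fun j => (hank (qs (rs cE ω)) j).det ≠ 0) N
  have hmle : m ≤ N := Nat.findGreatest_le _
  have hms : (hank (qs (rs cE ω)) m).det ≠ 0 :=
    Nat.findGreatest_spec (P := fun j => (hank (qs (rs cE ω)) j).det ≠ 0) (Nat.zero_le N) hz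
  have hmg : ∀ j, m < j → j ≤ N + K → (hank (qs (rs cE ω)) j).det = 0 := by
    intro j h4 h5
    rcases Nat.lt_or_ge N j with h6 | h6
    · refine (hd_zero_iff _ _).1 (hcon j h6 ?_)
      have h7 : (K : ℝ) ≤ Real.log N / Real.log (Real.log N) + 4 := Nat.floor_le hK0
      have h8 : (j : ℝ) ≤ N + K := by exact_mod_cast h5
      linarith
    · by_contra h7
      exact Nat.findGreatest_is_greatest h4 h6 h7
  refine hN0 (m + N) (by omega) fun j hj => ?_
  have hj' := mem_Ico.1 hj
  have hk := h1 m hmle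
  exact run_pd hms hmg (by omega) (by omega) (by omega)

end Pool.Agent.HK41
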