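import Pool.Agent.HK41.Runs

/-!
# HK41/RunsG: short runs of zeros for a random set with independent choices
-/

set_option autoImplicit false

namespace Pool.Agent.HK41

open MeasureTheory ProbabilityTheory Filter Topology Finset

/-- length of the forbidden runs of predicted terms -/
noncomputable def kg (ε : ℕ → ℝ) (t : ℕ) : ℕ :=
  ⌈(Real.log t + 2 * Real.log (Real.log t)) / Real.log (1 / ε t)⌉₊

variable {Ω : Type*} [mΩ : MeasurableSpace Ω] {μ : Measure Ω} {E : ℕ → Set Ω}

lemma runs_predG [IsProbabilityMeasure μ] (hE : ∀ m, MeasurableSet (E m))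
    (hi : iIndepSet E μ) {ε : ℕ → ℝ} (hε : Antitone ε) (hpe : ∀ m, μ.real (E m) ≤ ε m)
    (h0 : ∀ m, 0 < ε m) {M : ℕ} (hM : ε M < 1) :
    ∀ᵐ ω ∂μ, (rs E ω).Infinite → ∀ᶠ t : ℕ in atTop,
      ¬ ∀ j ∈ Ico t (t + kg ε t), PP j (el (rs E ω)) := by
  let F : ℕ → Set Ω := fun t =>
    {ω | (rs E ω).Infinite ∧
      ∀ j ∈ Ico (t + (M + 3)) (t + (M + 3) + kg ε (t + (M + 3))), PP j (el (rs E ω))}
  have hb : ∀ t, μ (F t)
      ≤ ENNReal.ofReal (1 / (((t + (M + 3) : ℕ) : ℝ) * Real.log ((t + (M + 3) : ℕ) : ℝ) ^ 2)) := by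
    intro t
    refine (all_predicted_le hE hi predictor_PP hε hpe _).trans (ENNReal.ofReal_le_ofReal ?_)
    obtain ⟨T, hT⟩ : ∃ T, T = t + (M + 3) := ⟨_, rfl⟩
    rw [← hT]
    have h3 : 3 ≤ T := by omega
    have hl := one_lt_log h3
    have hx0 : (0 : ℝ) < (T : ℝ) := by exact_mod_cast (by omega : 0 < T)
    have hl0 : 0 < Real.log (T : ℝ) := by linarith
    have he1 : ε T < 1 := (hε (by omega : M ≤ T)).trans_lt hM
    have he0 := h0 T
    have hlog : 0 < Real.log (1 / ε T) := Real.log_pos (by rw [lt_div_iff₀ he0]; linarith)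
    have h1 : ∏ j ∈ Ico T (T + kg ε T), ε j ≤ (ε T) ^ kg ε T := by
      have hcard : (Ico T (T + kg ε T)).card = kg ε T := by
        rw [Nat.card_Ico]; omega
      conv_rhs => rw [← hcard, ← prod_const]
      exact prod_le_prod (fun j _ => (h0 j).le) fun j hj => hε (mem_Ico.1 hj).1
    refine h1.trans ?_
    have h2 : Real.log T + 2 * Real.log (Real.log T) ≤ (kg ε T : ℝ) * Real.log (1 / ε T) := by
      rw [← div_le_iff₀ hlog]
      exact Nat.le_ceil _
    have h4 : (ε T) ^ kg ε T = Real.exp (-((kg ε T : ℝ) * Real.log (1 / ε T))) := by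
      rw [one_div, Real.log_inv, mul_neg, neg_neg, Real.exp_nat_mul, Real.exp_log he0]
    have h5 : 1 / ((T : ℝ) * Real.log T ^ 2) =
        Real.exp (-(Real.log T + 2 * Real.log (Real.log T))) := by
      have h6 : Real.exp (2 * Real.log (Real.log T)) = Real.log T ^ 2 := by
        rw [two_mul, Real.exp_add, Real.exp_log hl0, pow_two]
      rw [Real.exp_neg, Real.exp_add, Real.exp_log hx0, h6, one_div]
    rw [h4, h5]
    exact Real.exp_le_exp.2 (neg_le_neg h2)
  have hsum : (∑' t : ℕ, μ (F t)) ≠ ⊤ := by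
    have h1 : Summable (fun t : ℕ =>
        1 / (((t + (M + 3) : ℕ) : ℝ) * Real.log ((t + (M + 3) : ℕ) : ℝ) ^ 2)) :=
      (summable_nat_add_iff (M + 3)).2 summ_sq
    exact ne_top_of_le_ne_top h1.tsum_ofReal_ne_top (ENNReal.tsum_le_tsum hb)
  filter_upwards [ae_eventually_notMem hsum] with ω hω hinf
  obtain ⟨N0, hN0⟩ := eventually_atTop.1 hω
  filter_upwards [eventually_ge_atTop (N0 + (M + 3))] with t ht hall
  obtain ⟨k, rfl⟩ : ∃ k, t = k + (M + 3) := ⟨t - (M + 3), by omega⟩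
  exact hN0 k (by omega) ⟨hinf, hall⟩

lemma num_G {ε : ℕ → ℝ} (hε : Antitone ε) (h0 : ∀ m, 0 < ε m) {M : ℕ} (hM : ε M < 1) :
    ∀ᶠ N : ℕ in atTop, ∀ m : ℕ, m ≤ N → kg ε (m + N) ≤
      ⌊(Real.log N + 2 * Real.log (Real.log N) + 1) / Real.log (1 / ε N) + 1⌋₊ := by
  have hL : ∀ᶠ n : ℕ in atTop, (13 : ℝ) ≤ Real.log n :=
    (Real.tendsto_log_atTop.comp (tendsto_natCast_atTop_atTop (R := ℝ))).eventually_ge_atTop 13
  filter_upwards [hL, eventually_ge_atTop 1, eventually_ge_atTop M] with N hN h1 hNM m hm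
  have hN0 : (0 : ℝ) < N := by exact_mod_cast h1
  have heN : ε N < 1 := (hε hNM).trans_lt hM
  have hlN : 0 < Real.log (1 / ε N) := Real.log_pos (by rw [lt_div_iff₀ (h0 N)]; linarith)
  have hle : Real.log (1 / ε N) ≤ Real.log (1 / ε (m + N)) := by
    refine Real.log_le_log (one_div_pos.2 (h0 N)) ?_
    exact one_div_le_one_div_of_le (h0 _) (hε (by omega))
  set L := Real.log N with hLd
  have hll : 0 < Real.log L := Real.log_pos (by linarith)
  have h2 : Real.log ((m + N : ℕ) : ℝ) ≤ L + Real.log 2 := by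
    have h3 : ((m + N : ℕ) : ℝ) ≤ N * 2 := by
      have : m + N ≤ N * 2 := by omega
      exact_mod_cast this
    have h4 := Real.log_le_log (by exact_mod_cast (by omega : 0 < m + N)) h3
    rwa [Real.log_mul hN0.ne' (by norm_num)] at h4
  have h5 : L ≤ Real.log ((m + N : ℕ) : ℝ) :=
    Real.log_le_log hN0 (by exact_mod_cast (by omega : N ≤ m + N))
  have hlt := Real.log_two_lt_d9
  have hgt := Real.log_two_gt_d9
  -- the double logarithm
  have h6 : Real.log (Real.log ((m + N : ℕ) : ℝ)) ≤ Real.log L + Real.log 2 / L := by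
    have h7 : Real.log (Real.log ((m + N : ℕ) : ℝ)) ≤ Real.log (L * (1 + Real.log 2 / L)) := by
      refine Real.log_le_log (by linarith) (h2.trans (le_of_eq ?_))
      field_simp
    have h8 : 0 < 1 + Real.log 2 / L := by positivity
    rw [Real.log_mul (by linarith) h8.ne'] at h7
    have h9 := Real.log_le_sub_one_of_pos h8
    linarith
  have h10 : 2 * (Real.log 2 / L) ≤ 1 - Real.log 2 := by
    rw [← mul_div_assoc, div_le_iff₀ (by linarith)]
    nlinarith
  have h11 : Real.log ((m + N : ℕ) : ℝ) + 2 * Real.log (Real.log ((m + N : ℕ) : ℝ))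
      ≤ L + 2 * Real.log L + 1 := by linarith
  have h12 : 0 ≤ Real.log ((m + N : ℕ) : ℝ) + 2 * Real.log (Real.log ((m + N : ℕ) : ℝ)) := by
    have h13 : 0 ≤ Real.log (Real.log ((m + N : ℕ) : ℝ)) := Real.log_nonneg (by linarith)
    linarith
  have h14 : (Real.log ((m + N : ℕ) : ℝ) + 2 * Real.log (Real.log ((m + N : ℕ) : ℝ)))
      / Real.log (1 / ε (m + N)) ≤ (L + 2 * Real.log L + 1) / Real.log (1 / ε N) :=
    div_le_div₀ (by linarith) h11 hlN hle
  have h15 := (Nat.ceil_lt_add_one (div_nonneg h12 (hlN.trans_le hle).le)).le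
  refine Nat.le_floor ?_
  unfold kg
  refine h15.trans ?_
  linarith

/-- nonzero determinants in short intervals, for any random set with independent choices -/
theorem runs_general [IsProbabilityMeasure μ] (hE : ∀ m, MeasurableSet (E m))
    (hi : iIndepSet E μ) {ε : ℕ → ℝ} (hε : Antitone ε) (hpe : ∀ m, μ.real (E m) ≤ ε m)
    (hs : ¬ Summable (fun m => μ.real (E m))) (hM : ∃ M, ε M < 1) :
    ∀ᵐ ω ∂μ, (rs E ω).Infinite ∧ ∀ᶠ N : ℕ in atTop, ∃ n : ℕ, N < n ∧
      (n : ℝ) ≤ N + (Real.log N + 2 * Real.log (Real.log N) + 1) / Real.log (1 / ε N) + 1 ∧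
      hd (rs E ω) n ≠ 0 := by
  obtain ⟨M, hM⟩ := hM
  have h0 : ∀ m, 0 < ε m := by
    intro m
    by_contra hcon
    refine hs ?_
    have hz : ∀ k, m ≤ k → μ.real (E k) = 0 := fun k hk =>
      le_antisymm (((hpe k).trans (hε hk)).trans (not_lt.1 hcon)) measureReal_nonneg
    exact summable_of_ne_finset_zero (s := range m) fun k hk => hz k (by simpa using hk)
  filter_upwards [runs_predG hE hi hε hpe h0 hM, infinite_general hE hi hs] with ω hω hinf
  refine ⟨hinf, ?_⟩
  obtain ⟨N0, hN0⟩ := eventually_atTop.1 (hω hinf)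
  have hL : ∀ᶠ n : ℕ in atTop, (13 : ℝ) ≤ Real.log n :=
    (Real.tendsto_log_atTop.comp (tendsto_natCast_atTop_atTop (R := ℝ))).eventually_ge_atTop 13
  filter_upwards [num_G hε h0 hM, eventually_ge_atTop N0, hL, eventually_ge_atTop M] with
    N h1 h2 h3 hNM
  classical
  by_contra hcon
  push Not at hcon
  have heN : ε N < 1 := (hε hNM).trans_lt hM
  have hlN : 0 < Real.log (1 / ε N) := Real.log_pos (by rw [lt_div_iff₀ (h0 N)]; linarith)
  have hq : 0 ≤ (Real.log N + 2 * Real.log (Real.log N) + 1) / Real.log (1 / ε N) := by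
    refine div_nonneg ?_ hlN.le
    have := Real.log_pos (show 1 < Real.log (N : ℝ) by linarith)
    linarith
  set K := ⌊(Real.log N + 2 * Real.log (Real.log N) + 1) / Real.log (1 / ε N) + 1⌋₊ with hK
  have hK0 : 0 ≤ (Real.log N + 2 * Real.log (Real.log N) + 1) / Real.log (1 / ε N) + 1 := by
    linarith
  have hz : (hank (qs (rs E ω)) 0).det ≠ 0 := by
    rw [Matrix.det_fin_zero]; exact one_ne_zero
  let m := Nat.findGreatest (fun j => (hank (qs (rs E ω)) j).det ≠ 0) N
  have hmle : m ≤ N := Nat.findGreatest_le _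
  have hms : (hank (qs (rs E ω)) m).det ≠ 0 :=
    Nat.findGreatest_spec (P := fun j => (hank (qs (rs E ω)) j).det ≠ 0) (Nat.zero_le N) hz
  have hmg : ∀ j, m < j → j ≤ N + K → (hank (qs (rs E ω)) j).det = 0 := by
    intro j h4 h5
    rcases Nat.lt_or_ge N j with h6 | h6
    · refine (hd_zero_iff _ _).1 (hcon j h6 ?_)
      have h7 : (K : ℝ) ≤ (Real.log N + 2 * Real.log (Real.log N) + 1) / Real.log (1 / ε N) + 1 :=
        Nat.floor_le hK0
      have h8 : (j : ℝ) ≤ N + K := by exact_mod_cast h5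
      linarith
    · by_contra h7
      exact Nat.findGreatest_is_greatest h4 h6 h7
  refine hN0 (m + N) (by omega) fun j hj => ?_
  have hj' := mem_Ico.1 hj
  have hk := h1 m hmle
  exact run_pd hms hmg (by omega) (by omega) (by omega)

end Pool.Agent.HK41
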